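import Mathlib
import Pool.Agent.MP_d8b1b3_co.H68.Tile

/-!
Tiles of odd weight: symmetric weighing matrices of odd order, merged stars, pieces of odd weight
coming from the iterated logarithm theorem, and Miyamoto's theorem.
-/

set_option autoImplicit false

namespace Pool.Agent.MP_d8b1b3_co.H7

section

open Matrix Finset H68

/-- the four sides -/
abbrev Sd : Type := ZMod 2 × ZMod 2

/-- a symmetric weighing matrix of order `u` and weight `w` exists -/
def SW (u w : ℕ) : Prop := ∃ Y : Matrix (Fin u) (Fin u) ℤ, IsW Y w ∧ Yᵀ = Y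

/-- four commuting symmetric weighing matrices of order `u` -/
def Fam (u : ℕ) (w : Sd → ℕ) : Prop :=
  ∃ (L : Type) (_ : Fintype L) (_ : DecidableEq L) (D : Sd → Matrix L L ℤ), Fintype.card L = u ∧
    (∀ s, IsW (D s) (w s)) ∧ (∀ s, (D s)ᵀ = D s) ∧ ∀ s t, D s * D t = D t * D s

/-- A line piece: each star consists of `k` full lines of length `g` on its own side and of `δ`
points on lines of the other sides; every star occurs `m` times, there are `u` lines per side. -/
def LV (m k g δ u : ℕ) : Prop :=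
  ∃ (V L : Type) (_ : Fintype V) (_ : Fintype L) (o : V → Fin k → V) (sl : L → Fin δ → Sd)
    (nb : L → Fin δ → L), Fintype.card V * Fintype.card L = u ∧
    (∀ v, Function.Injective (o v)) ∧ (∀ x r, sl x r ≠ 0) ∧
    (∀ x, Function.Injective fun r => (sl x r, nb x r)) ∧
    ∀ (X : Type) [DecidableEq X] (φ : Sd → V → L → Fin g → X),
      m • ∑ ε, ∑ v, ∑ x, ∑ i, ({∑ σ, ∑ j, pt (φ ε (o v σ) x j) +
        ∑ r, pt (φ (ε + sl x r) v (nb x r) i)} : Multiset (X → ℤ)) ∈ St X (k * g + δ)

/-- enumeration of the support of a function with values zero and one -/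
lemma exists_enum {J : Type} [Fintype J] {a : J → ℤ} {δ : ℕ} (h : ∀ j, a j = 0 ∨ a j = 1)
    (hs : ∑ j, a j = δ) : ∃ g : Fin δ → J, Function.Injective g ∧ (∀ r, a (g r) = 1) ∧
      ∀ (M : Type) [AddCommGroup M] (f : J → M), ∑ j, a j • f j = ∑ r, f (g r) := by
  classical
  have h1 : ∀ j, a j = if a j ≠ 0 then 1 else 0 := fun j => by
    rcases h j with e | e <;> simp [e]
  have h2 : Fintype.card {j // a j ≠ 0} = δ := by
    rw [sum_congr rfl fun j _ => h1 j, sum_boole, ← Fintype.card_subtype] at hs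
    exact_mod_cast hs
  let e := (Fintype.equivFinOfCardEq h2).symm
  refine ⟨fun u => e u, Subtype.val_injective.comp e.injective,
    fun r => (h _).resolve_left (e r).2, fun M _ f => ?_⟩
  rw [Equiv.sum_comp e fun j => f j, ← sum_subtype (univ.filter fun j => a j ≠ 0) (by simp),
    sum_filter]
  refine sum_congr rfl fun j _ => ?_
  rcases h j with e | e <;> simp [e]

variable (X : Type) [DecidableEq X]

/-- multisets obtained from the stars of a weighing matrix by adding them up in groups -/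
def Mg (W : ℕ) : AddSubmonoid (Multiset (X → ℤ)) where
  carrier := {μ | ∃ (J : Type) (_ : Fintype J) (ρ : J → Multiset (X → ℤ)),
    ∑ j, ρ j ∈ St X W ∧ μ = ∑ j, {(ρ j).sum}}
  zero_mem' := ⟨Empty, inferInstance, Empty.elim, by simp, by simp⟩
  add_mem' := by
    rintro _ _ ⟨J, _, ρ, h1, rfl⟩ ⟨J', _, ρ', h1', rfl⟩
    refine ⟨J ⊕ J', inferInstance, Sum.elim ρ ρ', ?_, ?_⟩
    · rw [Fintype.sum_sum_type]; exact add_mem h1 h1'
    · rw [Fintype.sum_sum_type]; rfl

variable {X}

lemma St_mg {W : ℕ} {μ : Multiset (X → ℤ)} (h : μ ∈ St X W) : μ ∈ Mg X W := by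
  obtain ⟨I, i1, i2, Y, σ, h1, rfl⟩ := h
  exact ⟨I, i1, fun i => {star Y σ i}, ⟨I, i1, i2, Y, σ, h1, rfl⟩, by simp⟩

theorem tile_of_mg [Fintype X] {W n : ℕ} {μ : Multiset (X → ℤ)} (h : μ ∈ Mg X W)
    (h' : (n, μ) ∈ Rows X) : Tile W n (Fintype.card X) := by
  classical
  obtain ⟨J, _, ρ, h1, h2⟩ := h
  obtain ⟨A, _, τ, h3, h4, h5⟩ := h'
  have h6 : ∑ j, ({(ρ j).sum} : Multiset (X → ℤ)) =
      ∑ j : (Σ a, (τ a).ToType), {(j.2 : X → ℤ)} := by
    rw [← h2, Fintype.sum_sigma]
    refine h4.trans (sum_congr rfl fun a _ => ?_)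
    rw [Finset.sum_eq_multiset_sum, Multiset.map_univ (τ a) fun v => ({v} : Multiset (X → ℤ)),
      Multiset.sum_map_singleton]
  obtain ⟨e, he⟩ := exists_equiv_of_sum_eq _ _ h6
  refine tile_of h1 ⟨A, inferInstance, fun a => ∑ c : (τ a).ToType, ρ (e.symm ⟨a, c⟩), h3, ?_,
    fun a => ?_⟩
  · rw [← Equiv.sum_comp e.symm, Fintype.sum_sigma]
  · rw [Multiset.sum_sum, ← h5 a, Multiset.sum_eq_sum_coe (τ a)]
    refine sum_congr rfl fun c _ => ?_
    rw [← he, Equiv.apply_symm_apply]

end

section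

open Matrix Finset H68
open scoped Kronecker

lemma SW.of_card {I : Type} [Fintype I] [DecidableEq I] {Y : Matrix I I ℤ} {u w : ℕ}
    (h : IsW Y w) (hs : Yᵀ = Y) (hu : Fintype.card I = u) : SW u w :=
  ⟨Y.submatrix (Fintype.equivFinOfCardEq hu).symm (Fintype.equivFinOfCardEq hu).symm,
    h.submatrix _ _, by rw [transpose_submatrix, hs]⟩

/-- Kronecker product -/
lemma SW.mul {u v a b : ℕ} (h : SW u a) (h' : SW v b) : SW (u * v) (a * b) := by
  obtain ⟨Y, h1, h2⟩ := h
  obtain ⟨Z, h3, h4⟩ := h'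
  refine SW.of_card (h1.kron h3) ?_ (by simp)
  rw [← kroneckerMap_transpose, h2, h4]

/-- a back-circulant symmetric `W(7,4)` -/
lemma SW_seven : SW 7 4 := by
  have h : ∀ k, (![-1, 1, 1, 0, 1, 0, 0] : Fin 7 → ℤ) k ∈ [0, 1, -1] := by decide
  refine ⟨Matrix.of fun i j : Fin 7 => (![-1, 1, 1, 0, 1, 0, 0] : Fin 7 → ℤ) (i + j),
    ⟨fun i j => by simpa using h (i + j), ?_, ?_⟩, ?_⟩ <;> decide

section Plane

variable {F : Type} [Field F] [Fintype F] [DecidableEq F]

/-- normalised representatives of the points of the projective plane -/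
def rep : (F × F) ⊕ F ⊕ Unit → F × F × F
  | .inl (a, b) => (1, a, b)
  | .inr (.inl c) => (0, 1, c)
  | .inr (.inr _) => (0, 0, 1)

/-- the standard bilinear form -/
def dot (x y : F × F × F) : F := x.1 * y.1 + x.2.1 * y.2.1 + x.2.2 * y.2.2

lemma sum_const_off (g : F → ℤ) (h : ∀ t, t ≠ 0 → g t = g 1) :
    ∑ t, g t = g 0 + (Fintype.card F - 1) * g 1 := by
  rw [← add_sum_erase _ _ (mem_univ (0 : F)), sum_congr rfl fun t ht => h t (ne_of_mem_erase ht),
    sum_const, card_erase_of_mem (mem_univ _), card_univ, nsmul_eq_mul,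
    Nat.cast_sub Fintype.card_pos, Nat.cast_one]

lemma sum_rep (f : F × F × F → ℤ)
    (h : ∀ t, t ≠ 0 → ∀ a b c, f (t * a, t * b, t * c) = f (a, b, c)) (h0 : f (0, 0, 0) = 0) :
    ∑ v, f v = (Fintype.card F - 1) * ∑ x, f (rep x) := by
  simp only [Fintype.sum_sum_type, Fintype.sum_prod_type, rep, Fintype.sum_unique]
  rw [sum_const_off fun t => ∑ a, ∑ b, f (t, a, b), sum_const_off fun a => ∑ b, f (0, a, b),
    sum_const_off fun b => f (0, 0, b), h0]
  · ring
  · intro t ht
    simpa using h t ht 0 0 1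
  · intro t ht
    rw [← Equiv.sum_comp (Equiv.mulLeft₀ t ht)]
    refine sum_congr rfl fun b _ => ?_
    simpa using h t ht 0 1 b
  · intro t ht
    rw [← Equiv.sum_comp (Equiv.mulLeft₀ t ht)]
    refine sum_congr rfl fun a _ => ?_
    rw [← Equiv.sum_comp (Equiv.mulLeft₀ t ht)]
    refine sum_congr rfl fun b _ => ?_
    simpa using h t ht 1 a b

omit [DecidableEq F] in
lemma sum_shift (g : F → F → ℤ) (x y v0 : F × F × F) :
    Fintype.card F * ∑ v, g (dot x v) (dot y v) =
      ∑ v, ∑ t, g (dot x v + t * dot x v0) (dot y v + t * dot y v0) := by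
  rw [sum_comm, ← card_univ, ← nsmul_eq_mul, ← sum_const]
  refine sum_congr rfl fun t _ => ?_
  rw [← Equiv.sum_comp (Equiv.addRight (t • v0))]
  refine sum_congr rfl fun v _ => ?_
  congr 1 <;> simp [dot] <;> ring

omit [Fintype F] [DecidableEq F] in
lemma exists_sep {x y : (F × F) ⊕ F ⊕ Unit} (h : x ≠ y) :
    ∃ v, dot (rep x) v = 0 ∧ dot (rep y) v ≠ 0 := by
  by_contra hc
  push Not at hc
  have h1 := hc ((rep x).2.1, -(rep x).1, 0) (by simp only [dot]; ring)
  have h2 := hc ((rep x).2.2, 0, -(rep x).1) (by simp only [dot]; ring)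
  have h3 := hc (0, (rep x).2.2, -(rep x).2.1) (by simp only [dot]; ring)
  clear hc
  apply h
  rcases x with ⟨a, b⟩ | c | _ <;> rcases y with ⟨a', b'⟩ | c' | _ <;>
    simp_all [rep, dot, add_neg_eq_zero]

omit [Fintype F] [DecidableEq F] in
lemma exists_one (x : (F × F) ⊕ F ⊕ Unit) : ∃ v, dot (rep x) v = 1 := by
  rcases x with ⟨a, b⟩ | c | _
  exacts [⟨(1, 0, 0), by simp [rep, dot]⟩, ⟨(0, 1, 0), by simp [rep, dot]⟩,
    ⟨(0, 0, 1), by simp [rep, dot]⟩]

lemma SW_field (h2 : ringChar F ≠ 2) :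
    SW (Fintype.card F ^ 2 + Fintype.card F + 1) (Fintype.card F ^ 2) := by
  have hq : (1 : ℤ) < Fintype.card F := by exact_mod_cast Fintype.one_lt_card
  have hc : ∀ x y : F × F × F, dot x y = dot y x := fun x y => by simp only [dot]; ring
  have hs : (Matrix.of fun x y => quadraticChar F (dot (rep x) (rep y)))ᵀ =
      Matrix.of fun x y => quadraticChar F (dot (rep x) (rep y)) := by
    ext x y; simp only [transpose_apply, of_apply, hc (rep x)]
  refine SW.of_card (IsW.of_row (by positivity) (fun x y => ?_) ?_) hs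
    (by simp only [Fintype.card_sum, Fintype.card_prod, Fintype.card_unit]; ring)
  · simpa using quadraticChar_isQuadratic F (dot (rep x) (rep y))
  ext x y
  have k := sum_rep (fun v => quadraticChar F (dot (rep x) v) * quadraticChar F (dot (rep y) v))
    (fun t ht a b c => by
      have e : ∀ z : F × F × F, dot z (t * a, t * b, t * c) = t * dot z (a, b, c) := fun z => by
        simp only [dot]; ring
      rw [e, e, map_mul, map_mul, mul_mul_mul_comm, ← sq, quadraticChar_sq_one ht, one_mul])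
    (by simp [dot])
  simp only [Matrix.mul_apply, transpose_apply, of_apply, Matrix.smul_apply, Matrix.one_apply,
    smul_eq_mul]
  refine mul_left_cancel₀ (sub_pos.2 hq).ne' (mul_left_cancel₀ (zero_lt_one.trans hq).ne' ?_)
  rw [← k]
  split_ifs with e
  · subst e
    obtain ⟨v0, h0⟩ := exists_one x
    rw [sum_shift (fun a b => quadraticChar F a * quadraticChar F b) _ _ v0, h0]
    have : ∀ a : F, ∑ t, quadraticChar F (a + t * 1) * quadraticChar F (a + t * 1) =
        Fintype.card F - 1 := fun a => by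
      simp only [mul_one]
      rw [show ∑ t, quadraticChar F (a + t) * quadraticChar F (a + t) = _ from
        Equiv.sum_comp (Equiv.addLeft a) fun t => quadraticChar F t * quadraticChar F t,
        sum_const_off _ fun t ht => by rw [← sq, quadraticChar_sq_one ht]; simp]
      simp
    simp only [this, sum_const, card_univ, Fintype.card_prod, nsmul_eq_mul]
    push_cast; ring
  · obtain ⟨v0, h0, h1⟩ := exists_sep e
    rw [sum_shift (fun a b => quadraticChar F a * quadraticChar F b) _ _ v0, h0]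
    have : ∀ a : F, ∑ t, quadraticChar F (a + t * dot (rep y) v0) = 0 := fun a => by
      rw [← quadraticChar_sum_zero h2]
      exact Equiv.sum_comp ((Equiv.mulRight₀ _ h1).trans (Equiv.addLeft a)) (quadraticChar F)
    simp only [mul_zero, add_zero, ← mul_sum, this, sum_const_zero]

end Plane

/-- the quadratic character of the bilinear form on the points of the projective plane -/
lemma SW_prime {p : ℕ} (hp : p.Prime) (h2 : p ≠ 2) : SW (p ^ 2 + p + 1) (p ^ 2) := by
  have := Fact.mk hp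
  simpa [ZMod.card] using SW_field (F := ZMod p) (by rwa [ZMod.ringChar_zmod_n])

theorem SW_sq {a : ℕ} (ha : 0 < a) : ∃ u, u % 2 = 1 ∧ u ≤ a ^ 4 ∧ SW u (a ^ 2) := by
  induction a using induction_on_primes with
  | zero => omega
  | one => exact ⟨1, rfl, le_rfl, 1, IsW.one, transpose_one⟩
  | prime_mul p a hp ih =>
    obtain ⟨u, h1, h2, h3⟩ := ih (Nat.pos_of_mul_pos_left ha)
    obtain ⟨v, k1, k2, k3⟩ : ∃ v, v % 2 = 1 ∧ v ≤ p ^ 4 ∧ SW v (p ^ 2) := by
      by_cases h : p = 2
      · subst h; exact ⟨7, rfl, by norm_num, SW_seven⟩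
      · refine ⟨_, ?_, ?_, SW_prime hp h⟩
        · have := hp.eq_two_or_odd.resolve_left h
          rw [Nat.add_mod, Nat.add_mod (p ^ 2), Nat.pow_mod, this]
        · have := hp.two_le
          have h4 : 4 ≤ p ^ 2 := by nlinarith
          nlinarith
    refine ⟨v * u, by rw [Nat.mul_mod, k1, h1], ?_, ?_⟩
    · rw [mul_pow]; exact Nat.mul_le_mul k2 h2
    · rw [mul_pow]; exact k3.mul h3

section Pi

variable {S : Type} [Fintype S] [DecidableEq S] {L : S → Type} [∀ s, Fintype (L s)]
  [∀ s, DecidableEq (L s)]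

/-- Kronecker product of a finite family -/
def piK (M : ∀ s, Matrix (L s) (L s) ℤ) : Matrix (∀ s, L s) (∀ s, L s) ℤ :=
  Matrix.of fun x y => ∏ s, M s (x s) (y s)

omit [∀ s, DecidableEq (L s)] in
lemma piK_mul (M N : ∀ s, Matrix (L s) (L s) ℤ) : piK M * piK N = piK fun s => M s * N s := by
  ext x y
  simp only [piK, Matrix.mul_apply, of_apply, prod_univ_sum, Fintype.piFinset_univ,
    prod_mul_distrib]

lemma piK_isW {M : ∀ s, Matrix (L s) (L s) ℤ} {w : S → ℕ} (h : ∀ s, IsW (M s) (w s)) :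
    IsW (piK M) (∏ s, w s) := by
  have t : (piK M)ᵀ = piK fun s => (M s)ᵀ := rfl
  have o : (piK fun s => (w s : ℤ) • (1 : Matrix (L s) (L s) ℤ)) =
      ((∏ s, w s : ℕ) : ℤ) • (1 : Matrix (∀ s, L s) (∀ s, L s) ℤ) := by
    ext x y
    simp only [piK, of_apply, Matrix.smul_apply, Matrix.one_apply, smul_eq_mul, prod_mul_distrib,
      Fintype.prod_boole, Nat.cast_prod, funext_iff]
  refine ⟨fun x y => ?_, ?_, ?_⟩
  · refine prod_induction _ (fun z : ℤ => z = 0 ∨ z = 1 ∨ z = -1) ?_ (by simp)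
      fun s _ => (h s).ent _ _
    rintro a b (rfl | rfl | rfl) (rfl | rfl | rfl) <;> simp
  · rw [t, piK_mul, ← o]; exact congrArg piK (funext fun s => (h s).row)
  · rw [t, piK_mul, ← o]; exact congrArg piK (funext fun s => (h s).col)

end Pi

theorem fam_sq (d : Sd → ℕ) :
    ∃ u, u % 2 = 1 ∧ u ≤ (∑ s, d s ^ 2 + 1) ^ 8 ∧ Fam u fun s => d s ^ 2 := by
  have h : ∀ s, ∃ u, u % 2 = 1 ∧ u ≤ (∑ s, d s ^ 2 + 1) ^ 2 ∧ SW u (d s ^ 2) := fun s => by
    rcases Nat.eq_zero_or_pos (d s) with e | e
    · exact ⟨1, rfl, Nat.one_le_pow _ _ (Nat.succ_pos _), 0, by rw [e]; exact IsW.zero,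
        transpose_zero⟩
    · obtain ⟨u, h1, h2, h3⟩ := SW_sq e
      refine ⟨u, h1, h2.trans ?_, h3⟩
      rw [show d s ^ 4 = (d s ^ 2) ^ 2 by ring]
      exact Nat.pow_le_pow_left ((single_le_sum (f := fun s => d s ^ 2)
        (fun _ _ => Nat.zero_le _) (mem_univ s)).trans (Nat.le_succ _)) 2
  choose u h1 h2 Y h3 h4 using h
  refine ⟨∏ s, u s, ?_, ?_, (s : Sd) → Fin (u s), inferInstance, inferInstance,
    fun s => piK fun t => if t = s then Y t else 1, by simp, fun s => ?_, fun s => ?_,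
    fun s t => ?_⟩
  · exact prod_induction _ (fun n => n % 2 = 1) (fun a b ha hb => by rw [Nat.mul_mod, ha, hb])
      rfl fun s _ => h1 s
  · refine (prod_le_pow_card _ _ _ fun s _ => h2 s).trans ?_
    rw [← pow_mul]; rfl
  · have := piK_isW (M := fun t => if t = s then Y t else 1)
      (w := fun t => if t = s then d t ^ 2 else 1) fun t => by
        split_ifs
        exacts [h3 t, IsW.one]
    simpa using this
  · refine congrArg piK (funext fun t => ?_ : (fun t => (if t = s then Y t else 1)ᵀ) = _)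
    split_ifs
    exacts [h4 t, transpose_one]
  · rw [piK_mul, piK_mul]
    refine congrArg piK (funext fun r => ?_)
    split_ifs <;> simp

end

section

open Matrix Finset H68
open scoped Kronecker

variable {X : Type} [DecidableEq X]

/-- the periodic weighing matrix of weight `2 l` -/
lemma G_per {t l n : ℕ} [NeZero n] (h : G t l) (hl : 0 < l) (hn : l ≤ n) :
    ∃ Y : Matrix (ZMod n × (Bool × Fin (2 ^ t))) (ZMod n × (Bool × Fin (2 ^ t))) ℤ,
      IsW Y (2 * l) ∧
      (∀ a i b c, ∑ k, |Y (a, i) (b, (c, k))| = if (b - a).val < l then 1 else 0) ∧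
      ∀ a j b c, ∑ k, |Y (b, (c, k)) (a, j)| = if (a - b).val < l then 1 else 0 := by
  obtain ⟨M, hM⟩ := h
  let Q : ℕ → Matrix (Bool × Fin (2 ^ t)) (Bool × Fin (2 ^ t)) ℤ :=
    fun s => if s < l then M s else 0
  have hQ : ∀ (R : Type) [CommRing R] (u : R), ev Q n u = ev M l u := by
    intro R _ u
    ext i j
    rw [ev_apply, ev_apply, ← sum_subset (range_subset_range.2 hn)]
    · refine sum_congr rfl fun s hs => ?_
      simp only [Q, if_pos (mem_range.1 hs)]
    · intro s _ hs
      simp [Q, if_neg (mem_range.not.1 hs)]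
  have hY := periodize (n := n) (N := 2 * l) (Q := Q) fun R _ u v huv => by
    rw [hQ, hQ]; exact (hM.pu R u v huv).1
  refine ⟨_, IsW.of_row (by omega) (fun p q => ?_) hY, fun a i b c => ?_, fun a j b c => ?_⟩ <;>
    simp only [Matrix.of_apply, Q] <;> split_ifs with hs
  · exact rowOK_ent (hM.ok _ hs).1 _ _
  · exact Or.inl rfl
  · exact rowOK_sum (hM.ok _ hs).1 i c
  · simp
  · exact rowOK_sum (hM.ok _ hs).2 j c
  · simp

lemma Odd_sum {I : Type} [Fintype I] [DecidableEq I] {Y : Matrix I I ℤ} {w : ℕ} (h : IsW Y w)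
    (σ τ : I → X) :
    ∑ i, ({∑ j, |Y i j| • pt (σ j) + pt (τ i)} : Multiset (X → ℤ)) +
      ∑ i, ({pt (σ i) + ∑ j, |Y j i| • pt (τ j)} : Multiset (X → ℤ)) ∈ St X (w + 1) := by
  refine ⟨_, _, _, _, Sum.elim (fun p => σ p.2) (fun p => τ p.2),
    h.sum (IsW.one (I := Unit)), ?_⟩
  rw [Fintype.sum_sum_type, Fintype.sum_prod_type_right, Fintype.sum_prod_type_right]
  simp only [Fintype.sum_unique]
  congr 1 <;> refine sum_congr rfl fun i _ => ?_ <;> congr 1 <;>
    simp [H68.star, sumM, Fintype.sum_sum_type, Fintype.sum_prod_type, Matrix.one_apply,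
      apply_ite abs]

section

variable {M : Type} [AddCommMonoid M] {n l : ℕ} [NeZero n]

lemma Odd_add (hn : l ≤ n) (g : ZMod n → M) (a : ZMod n) :
    ∑ b, (if (b - a).val < l then g b else 0) = ∑ s ∈ range l, g (a + s) := by
  rw [← sum_filter]
  refine sum_nbij' (fun b => (b - a).val) (fun s => a + s) (by simp) (fun s hs => ?_) (by simp)
    (fun s hs => ?_) (by simp)
  · have := mem_range.1 hs
    simp only [mem_filter, mem_univ, true_and, add_sub_cancel_left]
    rwa [ZMod.val_cast_of_lt (by omega)]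
  · have := mem_range.1 hs
    simp only [add_sub_cancel_left]
    exact ZMod.val_cast_of_lt (by omega)

lemma Odd_sub (hn : l ≤ n) (g : ZMod n → M) (a : ZMod n) :
    ∑ b, (if (a - b).val < l then g b else 0) = ∑ s ∈ range l, g (a - s) := by
  rw [← Equiv.sum_comp (Equiv.subLeft a)]
  simpa using Odd_add hn (fun b => g (a - b)) 0

lemma Odd_tot (g : ZMod n → M) (a : ZMod n) : ∑ b, g b = ∑ s ∈ range n, g (a + s) := by
  rw [← Odd_add le_rfl]
  simp only [ZMod.val_lt, if_true]

lemma Odd_tot' (g : ZMod n → M) (a : ZMod n) : ∑ b, g b = ∑ s ∈ range n, g (a - s) := by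
  rw [← Odd_sub le_rfl]
  simp only [ZMod.val_lt, if_true]

end

omit [DecidableEq X] in
lemma Odd_blk {A K : Type} [Fintype A] [Fintype K] (y : A × Bool × K → ℤ) (p : A → Bool → Prop)
    [∀ b c, Decidable (p b c)] (hy : ∀ b c, ∑ k, y (b, (c, k)) = if p b c then 1 else 0)
    (f : A → Bool → X → ℤ) :
    ∑ j, y j • f j.1 j.2.1 = ∑ b, (if p b false then f b false else 0) +
      ∑ b, (if p b true then f b true else 0) := by
  rw [← sum_add_distrib, Fintype.sum_prod_type]
  refine sum_congr rfl fun b _ => ?_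
  simp only [Fintype.sum_prod_type, ← sum_smul, hy, Fintype.sum_bool, ite_smul, one_smul,
    zero_smul, add_comm]

/-- Stars with one point removed, odd weight. -/
theorem G_minus_odd {t l : ℕ} (h : G t l) (hl : 0 < l) {D : Type} [Fintype D]
    (hD : Fintype.card D = 2 * l + 2) (φ : D → X) :
    2 ^ (t + 2) • ∑ d, ({∑ d', pt (φ d') - pt (φ d)} : Multiset (X → ℤ)) ∈ St X (2 * l + 1) := by
  let e : ZMod (2 * l + 2) ≃ D := Fintype.equivOfCardEq (by rw [ZMod.card, hD])
  obtain ⟨Y, hY, y1, y2⟩ := G_per (n := 2 * l + 2) h hl (by omega)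
  let L : ZMod (2 * l + 2) := l + 1
  have hL : L + L = 0 := by
    rw [← ZMod.natCast_self (2 * l + 2)]
    push_cast
    ring
  let s : Bool → ZMod (2 * l + 2) := fun c => if c then L else 0
  let e1 : ZMod (2 * l + 2) × Bool × Fin (2 ^ t) ≃ ZMod (2 * l + 2) × Bool × Fin (2 ^ t) :=
    ⟨fun p => (p.1 + s p.2.1, p.2), fun p => (p.1 - s p.2.1, p.2), fun p => by simp,
      fun p => by simp⟩
  let g : ZMod (2 * l + 2) → X → ℤ := fun b => pt (φ (e b))
  have hn : l ≤ 2 * l + 2 := by omega
  have hr : range (2 * l + 2) = range (l + 1 + (l + 1)) := by congr 1; ring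
  have k := Odd_sum (hY.submatrix e1 (Equiv.refl _)) (fun p => φ (e (p.1 + 1 + s p.2.1)))
    fun p => φ (e (p.1 + L))
  have k1 : ∀ i : ZMod (2 * l + 2) × Bool × Fin (2 ^ t),
      ∑ j, |Y.submatrix e1 (Equiv.refl _) i j| • pt (φ (e (j.1 + 1 + s j.2.1))) +
        pt (φ (e (i.1 + L))) = ∑ b, g b - g i.1 := by
    rintro ⟨a, c, k⟩
    rw [Odd_blk (fun j => |Y.submatrix e1 (Equiv.refl _) (a, c, k) j|)
      (fun b _ => (b - (a + s c)).val < l) (fun b c' => y1 _ _ b c')
      fun b c' => g (b + 1 + s c'), Odd_add hn, Odd_add hn, Odd_tot g (a + s c), hr,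
      sum_range_add, sum_range_succ', sum_range_succ', eq_sub_iff_add_eq]
    have q1 : ∀ r : ℕ, a + s c + r + 1 + s false = a + s c + (r + 1 : ℕ) := fun r => by
      simp only [s]; push_cast; simp; ring
    have q2 : ∀ r : ℕ, a + s c + r + 1 + s true = a + s c + (l + 1 + (r + 1) : ℕ) := fun r => by
      simp only [s, L]; push_cast; ring
    have q3 : g (a + L) + g a = g (a + s c + (0 : ℕ)) + g (a + s c + (l + 1 + 0 : ℕ)) := by
      have q : ((l + 1 + 0 : ℕ) : ZMod (2 * l + 2)) = L := by simp [L]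
      rw [q]
      cases c
      · simp [s, add_comm]
      · simp [s, add_assoc, hL]
    simp only [q1, q2]
    linear_combination (exp := 1) q3
  have k2 : ∀ i : ZMod (2 * l + 2) × Bool × Fin (2 ^ t), pt (φ (e (i.1 + 1 + s i.2.1))) +
      ∑ j, |Y.submatrix e1 (Equiv.refl _) j i| • pt (φ (e (j.1 + L))) =
        ∑ b, g b - g (i.1 + (1 + s (!i.2.1))) := by
    rintro ⟨a, c, k⟩
    rw [Odd_blk (fun j => |Y.submatrix e1 (Equiv.refl _) j (a, c, k)|)
      (fun b c' => (a - s c' - b).val < l) (fun b c' => (y2 a (c, k) (b + s c') c').trans (by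
        rw [sub_sub, add_comm (s c')])) fun b _ => g (b + L), Odd_sub hn, Odd_sub hn,
      Odd_tot' g (a + L), hr, sum_range_add, sum_range_succ, sum_range_succ, eq_sub_iff_add_eq]
    have q1 : ∀ r : ℕ, a - s false - r + L = a + L - r := fun r => by
      simp only [s]; simp; ring
    have q2 : ∀ r : ℕ, a - s true - r + L = a + L - (l + 1 + r : ℕ) := fun r => by
      simp only [s, L]; push_cast; ring
    have q3 : g (a + 1 + s c) + g (a + (1 + s (!c))) =
        g (a + L - l) + g (a + L - (l + 1 + l : ℕ)) := by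
      have q : a + L - l = a + 1 := by simp only [L]; ring
      have q' : a + L - (l + 1 + l : ℕ) = a + 1 + L := by
        push_cast
        linear_combination -hL
      rw [q, q']
      cases c
      · simp [s, add_assoc]
      · simp [s, add_assoc, add_comm]
    simp only [q1, q2]
    linear_combination (exp := 1) q3
  have k3 : ∀ z, ∑ a, ({∑ b, g b - g (a + z)} : Multiset (X → ℤ)) = ∑ a, {∑ b, g b - g a} :=
    fun z => Equiv.sum_comp (Equiv.addRight z) fun a => ({∑ b, g b - g a} : Multiset (X → ℤ))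
  simp only [k1, k2] at k
  simp only [Fintype.sum_prod_type_right (α₁ := ZMod (2 * l + 2))] at k
  simp only [k3, sum_const, card_univ, Fintype.card_prod, Fintype.card_bool, Fintype.card_fin,
    ← add_nsmul] at k
  rw [← Equiv.sum_comp e, ← Equiv.sum_comp e fun d => pt (φ d),
    show 2 ^ (t + 2) = 2 * 2 ^ t + 2 * 2 ^ t by ring]
  exact k

/-- Pairs of stars covering two full lines. -/
theorem G_pair {t l : ℕ} (h : G t l) (hl : 0 < l) {D : Type} [Fintype D]
    (hD : Fintype.card D = 2 * l + 1) (φ ψ : D → X) :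
    (2 ^ (t + 1) * (2 * l + 1)) • ({∑ d, pt (φ d) + ∑ d, pt (ψ d)} : Multiset (X → ℤ)) ∈
      Mg X (2 * l + 1) := by
  let e : ZMod (2 * l + 1) ≃ D := Fintype.equivOfCardEq (by rw [ZMod.card, hD])
  obtain ⟨Y, hY, y1, y2⟩ := G_per (n := 2 * l + 1) h hl (by omega)
  have hL : (l : ZMod (2 * l + 1)) + l + 1 = 0 := by
    rw [← ZMod.natCast_self (2 * l + 1)]
    push_cast
    ring
  let s : Bool → ZMod (2 * l + 1) := fun c => if c then l else 0
  let e1 : ZMod (2 * l + 1) × Bool × Fin (2 ^ t) ≃ ZMod (2 * l + 1) × Bool × Fin (2 ^ t) :=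
    ⟨fun p => (p.1 - 1 - s (!p.2.1), !p.2.1, p.2.2), fun p => (p.1 + s p.2.1 + 1, !p.2.1, p.2.2),
      fun p => by simp, fun p => by simp⟩
  let f : ZMod (2 * l + 1) → X → ℤ := fun b => pt (φ (e b))
  let g : ZMod (2 * l + 1) → X → ℤ := fun b => pt (ψ (e b))
  have hn : l ≤ 2 * l + 1 := by omega
  have hr : range (2 * l + 1) = range (l + l + 1) := by congr 1; ring
  have k := Odd_sum hY (fun p => φ (e (p.1 + s p.2.1))) fun p => ψ (e (p.1 + s p.2.1))
  have k1 : ∀ i : ZMod (2 * l + 1) × Bool × Fin (2 ^ t),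
      ∑ j, |Y i j| • pt (φ (e (j.1 + s j.2.1))) = ∑ b, f b - f (i.1 - 1) := by
    rintro ⟨a, c, k⟩
    rw [Odd_blk (fun j => |Y (a, c, k) j|) (fun b _ => (b - a).val < l) (fun b c' => y1 _ _ b c')
      fun b c' => f (b + s c'), Odd_add hn, Odd_add hn, Odd_tot f a, hr,
      sum_range_succ, sum_range_add, eq_sub_iff_add_eq]
    have q2 : ∀ r : ℕ, a + r + s true = a + (l + r : ℕ) := fun r => by
      simp only [s]; push_cast; ring
    have q3 : a + (l + l : ℕ) = a - 1 := by
      push_cast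
      linear_combination hL
    simp only [q2, q3]
    simp [s]
  have k2 : ∀ i : ZMod (2 * l + 1) × Bool × Fin (2 ^ t),
      ∑ j, |Y j i| • pt (ψ (e (j.1 + s j.2.1))) = ∑ b, g b - g (i.1 + l + 1) := by
    rintro ⟨a, c, k⟩
    rw [Odd_blk (fun j => |Y j (a, c, k)|) (fun b _ => (a - b).val < l) (fun b c' => y2 _ _ b c')
      fun b c' => g (b + s c'), Odd_sub hn, Odd_sub hn, Odd_tot' g (a + l), hr,
      sum_range_succ, sum_range_add, eq_sub_iff_add_eq]
    have q1 : ∀ r : ℕ, a - r + s true = a + l - r := fun r => by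
      simp only [s]; simp; ring
    have q2 : ∀ r : ℕ, a - r + s false = a + l - (l + r : ℕ) := fun r => by
      simp only [s]; push_cast; simp; ring
    have q3 : a + l - (l + l : ℕ) = a + l + 1 := by
      push_cast
      linear_combination -hL
    simp only [q1, q2, q3]
    abel
  simp only [k1, k2] at k
  rw [← Equiv.sum_comp e1 fun i => ({pt (φ (e (i.1 + s i.2.1))) + (∑ b, g b - g (i.1 + l + 1))} :
    Multiset (X → ℤ)), ← sum_add_distrib] at k
  refine ⟨_, _, _, k, ?_⟩
  rw [← Equiv.sum_comp e fun d => pt (φ d), ← Equiv.sum_comp e fun d => pt (ψ d),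
    sum_congr rfl (g := fun _ => ({∑ b, f b + ∑ b, g b} : Multiset (X → ℤ))), sum_const, card_univ]
  · congr 1
    simp [ZMod.card]
    ring
  rintro ⟨a, c, k⟩ -
  have q1 : a - 1 - s (!c) + s (!c) = a - 1 := by ring
  have q2 : a - 1 - s (!c) + l + 1 = a + s c := by
    cases c
    · simp only [s, Bool.not_false, if_true]; simp
    · simp only [s, Bool.not_true, if_true]; simp; ring
  simp only [e1, Equiv.coe_fn_mk, q1, q2, Multiset.sum_add, Multiset.sum_singleton, f, g]
  congr 1
  abel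

end

section

open Matrix Finset H68

/-- a tile of weight `q` on two lines of length `q` -/
lemma Miya_tile {q : ℕ} (hq : q.Prime) (h2 : q ≠ 2) {Y : Type} [Fintype Y] [DecidableEq Y]
    (hY : Fintype.card Y + 1 = q) (H : HadOn Y) : Tile q (2 * q) (2 * q) := by
  have : Fact q.Prime := ⟨hq⟩
  let z : Bool → Bool × Option Y → ℤ := fun c => pt (c, none)
  let p : Bool → Y → Bool × Option Y → ℤ := fun c y => pt (c, some y)
  let P : Bool → Bool × Option Y → ℤ := fun c => ∑ y, p c y
  have one : ∀ c, P c + z c + (P (!c) + z (!c)) = 1 := by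
    have e : ∑ x : Bool × Option Y, pt x = 1 := by
      ext y
      simp [pt, Finset.sum_apply]
    rw [Fintype.sum_prod_type, Fintype.sum_bool, Fintype.sum_option, Fintype.sum_option] at e
    rintro (_ | _) <;> rw [← e] <;> simp only [P, p, z, Bool.not_true, Bool.not_false] <;> abel
  have A : ∀ c, ({P c + z c} + ({P c + z (!c)} + ∑ y, {P c + z c + z (!c) - p c y}) :
      Multiset (Bool × Option Y → ℤ)) ∈ St (Bool × Option Y) q := fun c => by
    have h := conf_piece (ZMod q) (by rwa [ZMod.ringChar_zmod_n]) (D := Option (Option Y))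
      (by rw [ZMod.card, Fintype.card_option, Fintype.card_option, hY])
      (fun o => o.elim (!c, none) fun o' => (c, o'))
    rw [ZMod.card] at h
    simp only [Fintype.sum_option, Option.elim] at h
    convert h using 3
    · simp only [P, p, z]; abel
    · simp only [P, p, z]; congr 1; abel
    · refine sum_congr rfl fun y _ => ?_
      simp only [P, p, z]; congr 2; abel
  have B : (∑ y, {P true + p false y} + ∑ y, {P false + p true y} :
      Multiset (Bool × Option Y → ℤ)) ∈ St (Bool × Option Y) q := by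
    obtain ⟨nb, -, n2, h⟩ := sigma_piece (X := Bool × Option Y) H (IsW.one (I := Unit))
    have n3 : ∀ ν u, (nb ν u).isLeft = !ν.isLeft := fun ν u => by
      have := n2 ν u
      generalize nb ν u = μ at this
      rcases ν with _ | _ <;> rcases μ with _ | _ <;> simp at this ⊢
    have h' := h fun ν d => (ν.isLeft, some d)
    rw [hY] at h'
    simpa only [n3, Fintype.sum_sum_type, Fintype.sum_unique, Sum.isLeft_inl, Sum.isLeft_inr,
      Bool.not_true, Bool.not_false] using h'
  have R : ∀ c, (Fintype.card Y, (∑ y, {P (!c) + p c y} + ∑ y, {P c + z c + z (!c) - p c y} :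
      Multiset (Bool × Option Y → ℤ))) ∈ Rows (Bool × Option Y) := fun c =>
    ⟨Y, inferInstance, fun y => {P (!c) + p c y} + {P c + z c + z (!c) - p c y}, rfl,
      sum_add_distrib.symm, fun y => by
        rw [Multiset.sum_add, Multiset.sum_singleton, Multiset.sum_singleton, ← one c]; abel⟩
  have R1 := Rows.one (ρ := {P true + z true} + {P false + z false}) (by
    rw [Multiset.sum_add, Multiset.sum_singleton, Multiset.sum_singleton]; exact one true)
  have R2 := Rows.one (ρ := {P true + z false} + {P false + z true}) (by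
    rw [Multiset.sum_add, Multiset.sum_singleton, Multiset.sum_singleton, ← one true]
    simp only [Bool.not_true]; abel)
  have h := tile_of (n := 2 * q) (add_mem (add_mem (A true) (A false)) B) (by
    convert add_mem (add_mem R1 R2) (add_mem (R true) (R false)) using 1
    simp only [Prod.mk_add_mk, Bool.not_true, Bool.not_false]
    refine Prod.ext (by simp only; omega) ?_
    simp only
    abel)
  rwa [Fintype.card_prod, Fintype.card_bool, Fintype.card_option, hY] at h

/-- Miyamoto's theorem -/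
theorem miyamoto4 {q : ℕ} (hq : q.Prime) (h2 : q ≠ 2) (H : HadOn (Fin (q - 1))) :
    HadOn (Fin (4 * q)) := by
  have h := Miya_tile hq h2 (by rw [Fintype.card_fin]; have := hq.pos; omega) H
  exact h.had hq.pos (hadOn_two_pow 1) (hadOn_two_pow 1)

end

end Pool.Agent.MP_d8b1b3_co.H7
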