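import Mathlib
import Pool.Agent.Lib.HasseMinkowski.Main
import Pool.Agent.MP_d8b1b3_co.H7.Base

/-!
The three squares theorem and the two line pieces.
-/

set_option autoImplicit false

namespace Pool.Agent.MP_d8b1b3_co.H7

section

open Pool.Agent.Lib.HasseMinkowski

lemma near_int (x t : ℤ) (ht : 0 < t) : ∃ u : ℤ, 4 * (x - t * u) ^ 2 ≤ t ^ 2 := by
  have h1 := Int.emod_nonneg (2 * x + t) (show 2 * t ≠ 0 by omega)
  have h2 := Int.emod_lt_of_pos (2 * x + t) (show 0 < 2 * t by omega)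
  have h3 := Int.emod_add_mul_ediv (2 * x + t) (2 * t)
  refine ⟨(2 * x + t) / (2 * t), ?_⟩
  generalize (2 * x + t) / (2 * t) = u at *
  generalize (2 * x + t) % (2 * t) = r at *
  have e : 2 * (x - t * u) = r - t := by linarith
  have : 4 * (x - t * u) ^ 2 = (r - t) ^ 2 := by rw [← e]; ring
  rw [this]
  nlinarith

/-- Davenport-Cassels (Aubry). -/
lemma cassels (n : ℤ) (t : ℕ) (ht : 0 < t) (x y z : ℤ) (h : x ^ 2 + y ^ 2 + z ^ 2 = n * t ^ 2) :
    ∃ a b c : ℤ, a ^ 2 + b ^ 2 + c ^ 2 = n := by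
  induction t using Nat.strong_induction_on generalizing x y z with
  | _ t ih =>
    have t0 : (0 : ℤ) < t := by exact_mod_cast ht
    obtain ⟨u, hu⟩ := near_int x t t0
    obtain ⟨v, hv⟩ := near_int y t t0
    obtain ⟨w, hw⟩ := near_int z t t0
    obtain ⟨s, hs⟩ : ∃ s : ℤ,
        s = n * t - 2 * (x * u + y * v + z * w) + t * (u ^ 2 + v ^ 2 + w ^ 2) := ⟨_, rfl⟩
    have e : t * s = (x - t * u) ^ 2 + (y - t * v) ^ 2 + (z - t * w) ^ 2 := by
      rw [hs]; linear_combination (-1 : ℤ) * h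
    have s0 : 0 ≤ s := by
      have : 0 ≤ (t : ℤ) * s := by rw [e]; positivity
      exact (mul_nonneg_iff_of_pos_left t0).1 this
    have s1 : s < t := by
      have : (t : ℤ) * s < t * t := by nlinarith
      exact lt_of_mul_lt_mul_left this t0.le
    rcases s0.eq_or_lt with s2 | s2
    · rw [← s2, mul_zero] at e
      have q1 := sq_nonneg (x - t * u)
      have q2 := sq_nonneg (y - t * v)
      have q3 := sq_nonneg (z - t * w)
      have a1 : x - t * u = 0 := pow_eq_zero_iff two_ne_zero |>.1 (by linarith)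
      have a2 : y - t * v = 0 := pow_eq_zero_iff two_ne_zero |>.1 (by linarith)
      have a3 : z - t * w = 0 := pow_eq_zero_iff two_ne_zero |>.1 (by linarith)
      refine ⟨u, v, w, mul_right_cancel₀ (pow_ne_zero 2 t0.ne') ?_⟩
      rw [← h, sub_eq_zero.1 a1, sub_eq_zero.1 a2, sub_eq_zero.1 a3]
      ring
    · obtain ⟨k, rfl⟩ := Int.eq_ofNat_of_zero_le s0
      obtain ⟨a, ha⟩ : ∃ a : ℤ, a = u ^ 2 + v ^ 2 + w ^ 2 - n := ⟨_, rfl⟩
      obtain ⟨b, hb⟩ : ∃ b : ℤ, b = 2 * (n * t - (x * u + y * v + z * w)) := ⟨_, rfl⟩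
      refine ih k (by exact_mod_cast s1) (by exact_mod_cast s2) (a * x + b * u) (a * y + b * v)
        (a * z + b * w) ?_
      have e2 : (k : ℤ) = a * t + b := by rw [hs, ha, hb]; ring
      rw [e2]
      linear_combination a ^ 2 * h - b ^ 2 * ha + a * b * hb

lemma sq_two {m : ℤ} (h : (8 : ℤ) ∣ m - 1) : IsSquare (m : ℚ_[2]) := by
  apply sq_near_one
  have := (Padic.norm_int_le_pow_iff_dvd (p := 2) (m - 1) 3).2 (by exact_mod_cast h)
  simpa using this

lemma iso_four {K : Type*} [Field K] (n x y z : K) (h : x ^ 2 + y ^ 2 + z ^ 2 = n) :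
    Iso ![1, 1, 1, -n] := by
  refine ⟨![x, y, z, 1], fun e => ?_, ?_⟩
  · simpa using congrFun e 3
  · simp [Fin.sum_univ_four, ← h]

lemma cast_four {K : Type*} [Field K] [CharZero K] (n : ℕ) :
    (fun i => ((![1, 1, 1, -(n : ℚ)] i : ℚ) : K)) = ![1, 1, 1, -(n : K)] := by
  funext i
  fin_cases i <;> simp

lemma iso_rat {n : ℕ} (h1 : n % 2 = 1) (h7 : n % 8 ≠ 7) : Iso ![1, 1, 1, -(n : ℚ)] := by
  have n0 : n ≠ 0 := by omega
  refine hasse_minkowski _ (fun i => by fin_cases i <;> simp [n0]) (fun p hp => ?_) ?_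
  · rw [cast_four]
    by_cases p2 : p = 2
    · subst p2
      have : n % 8 = 1 ∨ n % 8 = 3 ∨ n % 8 = 5 := by omega
      rcases this with h | h | h
      · obtain ⟨r, hr⟩ := sq_two (m := (n : ℤ)) (by omega)
        exact iso_four _ r 0 0 (by push_cast at hr; rw [hr]; ring)
      · obtain ⟨r, hr⟩ := sq_two (m := (n : ℤ) - 2) (by omega)
        exact iso_four _ r 1 1 (by push_cast at hr; linear_combination -hr)
      · obtain ⟨r, hr⟩ := sq_two (m := (n : ℤ) - 4) (by omega)
        exact iso_four _ r 2 0 (by push_cast at hr; linear_combination -hr)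
    · refine Iso.of_comp (Fin.castLE (show 3 ≤ 4 by omega)) (Fin.castLE_injective _) ?_
      have e : (fun j => (![1, 1, 1, -(n : ℚ_[p])] : Fin 4 → ℚ_[p])
          (Fin.castLE (show 3 ≤ 4 by omega) j)) = ![1, 1, 1] := by
        funext j
        fin_cases j <;> rfl
      rw [e]
      exact iso_unimodular p2 norm_one norm_one norm_one
  · unfold RealIso
    rw [cast_four]
    exact iso_four _ (√n) 0 0 (by simp)

/-- three squares for odd `n` not `7 mod 8` -/
theorem three_squares {n : ℕ} (h1 : n % 2 = 1) (h7 : n % 8 ≠ 7) :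
    ∃ a b c : ℕ, a ^ 2 + b ^ 2 + c ^ 2 = n := by
  obtain ⟨w, hw, e⟩ := iso_rat h1 h7
  have e' : w 0 ^ 2 + w 1 ^ 2 + w 2 ^ 2 = n * w 3 ^ 2 := by
    simp [Fin.sum_univ_four] at e
    linarith
  have w3 : w 3 ≠ 0 := by
    intro h3
    rw [h3] at e'
    apply hw
    have q1 := sq_nonneg (w 0)
    have q2 := sq_nonneg (w 1)
    have q3 := sq_nonneg (w 2)
    have a0 : w 0 = 0 := pow_eq_zero_iff two_ne_zero |>.1 (by linarith)
    have a1 : w 1 = 0 := pow_eq_zero_iff two_ne_zero |>.1 (by linarith)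
    have a2 : w 2 = 0 := pow_eq_zero_iff two_ne_zero |>.1 (by linarith)
    funext i
    fin_cases i
    exacts [a0, a1, a2, h3]
  obtain ⟨x, hx⟩ : ∃ x : ℚ, x = w 0 / w 3 := ⟨_, rfl⟩
  obtain ⟨y, hy⟩ : ∃ y : ℚ, y = w 1 / w 3 := ⟨_, rfl⟩
  obtain ⟨z, hz⟩ : ∃ z : ℚ, z = w 2 / w 3 := ⟨_, rfl⟩
  have e2 : x ^ 2 + y ^ 2 + z ^ 2 = n := by
    rw [hx, hy, hz]
    field_simp
    linear_combination e'
  have e3 : (x.num * y.den * z.den) ^ 2 + (y.num * x.den * z.den) ^ 2 +
      (z.num * x.den * y.den) ^ 2 = (n : ℤ) * ((x.den * y.den * z.den : ℕ) : ℤ) ^ 2 := by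
    have : (((x.num * y.den * z.den) ^ 2 + (y.num * x.den * z.den) ^ 2 +
      (z.num * x.den * y.den) ^ 2 : ℤ) : ℚ) =
        (((n : ℤ) * ((x.den * y.den * z.den : ℕ) : ℤ) ^ 2 : ℤ) : ℚ) := by
      push_cast
      rw [← Rat.mul_den_eq_num x, ← Rat.mul_den_eq_num y, ← Rat.mul_den_eq_num z, ← e2]
      ring
    exact_mod_cast this
  obtain ⟨a, b, c, h⟩ := cassels n _
    (Nat.mul_pos (Nat.mul_pos x.den_pos y.den_pos) z.den_pos) _ _ _ e3
  refine ⟨a.natAbs, b.natAbs, c.natAbs, ?_⟩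
  zify
  simpa [sq_abs] using h

end

section

open Matrix Finset H68
open scoped Kronecker

/-- the conference matrix of a field in which minus one is a square is symmetric -/
lemma conf_symm_field (F : Type) [Field F] [Fintype F] [DecidableEq F] (hF : ringChar F ≠ 2)
    (hm : quadraticChar F (-1) = 1) :
    ∃ C : Matrix (Option F) (Option F) ℤ, IsW C (Fintype.card F) ∧ Cᵀ = C ∧
      ∀ i j, |C i j| = if i = j then 0 else 1 := by
  let χ := quadraticChar F
  have hsum : ∑ a, χ a = 0 := quadraticChar_sum_zero hF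
  have hsum' : ∀ x : F, ∑ z, χ (x - z) = 0 := fun x => by
    rw [← hsum]
    exact Equiv.sum_comp (Equiv.subLeft x) (fun a => χ a)
  have hcore : ∀ x y : F, ∑ z, χ (x - z) * χ (y - z) =
      (if x = y then (Fintype.card F : ℤ) else 0) - 1 := by
    intro x y
    split_ifs with hxy
    · subst hxy
      have : ∀ z, χ (x - z) * χ (x - z) = 1 - if z = x then 1 else 0 := by
        intro z
        split_ifs with hz
        · simp [hz, χ.map_zero]
        · rw [← sq, quadraticChar_sq_one (sub_ne_zero.2 (Ne.symm hz)), sub_zero]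
      simp only [this, Finset.sum_sub_distrib, Finset.sum_const, Finset.card_univ,
        nsmul_eq_mul, mul_one, Finset.sum_ite_eq', Finset.mem_univ, if_true]
    · have hd : x - y ≠ 0 := sub_ne_zero.2 hxy
      have e1 : ∀ z, χ (x - z) * χ (y - z) =
          χ (1 + (x - y) * (y - z)⁻¹) - if z = y then 1 else 0 := by
        intro z
        split_ifs with hz
        · simp [hz, χ.map_zero]
        · have h0 : y - z ≠ 0 := sub_ne_zero.2 (Ne.symm hz)
          have h1 : x - z = (1 + (x - y) * (y - z)⁻¹) * (y - z) := by field_simp; ring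
          rw [sub_zero]
          conv_lhs => rw [h1, map_mul, mul_assoc, ← sq, quadraticChar_sq_one h0, mul_one]
      simp only [e1, Finset.sum_sub_distrib, Finset.sum_ite_eq', Finset.mem_univ, if_true]
      congr 1
      rw [← hsum]
      exact Equiv.sum_comp ((Equiv.subLeft y).trans ((Equiv.inv F).trans
        ((Equiv.mulLeft₀ (x - y) hd).trans (Equiv.addLeft 1)))) (fun a => χ a)
  let Z : Matrix (Option F) (Option F) ℤ := Matrix.of fun x y =>
    x.elim (y.elim 0 fun _ => 1) fun a => y.elim 1 fun b => χ (a - b)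
  have habs : ∀ i j, |Z i j| = if i = j then 0 else 1 := by
    rintro (_ | x) (_ | y)
    · simp [Z]
    · simp [Z]
    · simp [Z]
    · by_cases h : x = y
      · simp [Z, h, χ.map_zero]
      · have e0 : Z (some x) (some y) = quadraticChar F (x - y) := rfl
        rcases quadraticChar_dichotomy (sub_ne_zero.2 h) with e | e <;> rw [e0, e] <;> simp [h]
  refine ⟨Z, IsW.of_row Fintype.card_pos (fun i j => ?_) ?_, ?_, habs⟩
  · have := habs i j
    split_ifs at this
    · exact Or.inl (abs_eq_zero.1 this)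
    · exact Or.inr ((abs_eq zero_le_one).1 this)
  · ext (_ | x) (_ | y)
    · simp [Z, Matrix.mul_apply, Fintype.sum_option]
    · simpa [Z, Matrix.mul_apply, Fintype.sum_option] using hsum' y
    · simpa [Z, Matrix.mul_apply, Fintype.sum_option] using hsum' x
    · have := hcore x y
      simp only [Z, Matrix.mul_apply, Fintype.sum_option, transpose_apply, Matrix.of_apply,
        Option.elim, this, Matrix.smul_apply, Matrix.one_apply, Option.some.injEq, smul_eq_mul]
      split_ifs <;> ring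
  · ext (_ | x) (_ | y)
    · rfl
    · rfl
    · rfl
    · change quadraticChar F (y - x) = quadraticChar F (x - y)
      rw [← neg_sub, ← neg_one_mul, map_mul, hm, one_mul]

lemma conf_symm {p : ℕ} (hp : p.Prime) (h1 : p % 4 = 1) :
    ∃ C : Matrix (Fin (p + 1)) (Fin (p + 1)) ℤ, IsW C p ∧ Cᵀ = C ∧
      ∀ i j, |C i j| = if i = j then 0 else 1 := by
  have : Fact p.Prime := ⟨hp⟩
  have hF : ringChar (ZMod p) ≠ 2 := by rw [ZMod.ringChar_zmod_n]; omega
  obtain ⟨C, a1, a2, a3⟩ := conf_symm_field (ZMod p) hF (by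
    rw [quadraticChar_neg_one hF, ZMod.card, ZMod.χ₄_nat_one_mod_four h1])
  rw [ZMod.card] at a1
  let e : Fin (p + 1) ≃ Option (ZMod p) := Fintype.equivOfCardEq (by simp)
  refine ⟨C.submatrix e e, a1.submatrix e e, by rw [transpose_submatrix, a2], fun i j => ?_⟩
  simp only [submatrix_apply, a3, e.injective.eq_iff]

/-- Clifford sums. -/
lemma clifford {T Ω I : Type} [Fintype T] [DecidableEq T] [Fintype Ω] [DecidableEq Ω] [Fintype I]
    [DecidableEq I] (γ : T → Matrix Ω Ω ℤ) (M : T → Matrix I I ℤ) (w : T → ℕ)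
    (h1 : ∀ t, IsW (γ t) 1) (h2 : ∀ s t, s ≠ t → γ s * (γ t)ᵀ + γ t * (γ s)ᵀ = 0)
    (h3 : ∀ s t a b, s ≠ t → γ s a b = 0 ∨ γ t a b = 0) (h4 : ∀ t, IsW (M t) (w t))
    (h5 : ∀ s t, M s * (M t)ᵀ = M t * (M s)ᵀ) (hw : 0 < ∑ t, w t) :
    IsW (∑ t, γ t ⊗ₖ M t) (∑ t, w t) ∧
      ∀ a b i j, |(∑ t, γ t ⊗ₖ M t) (a, i) (b, j)| = ∑ t, |γ t a b| * |M t i j| := by
  have key : ∀ a b i j, ((∑ t, γ t ⊗ₖ M t) (a, i) (b, j) = 0 ∧ ∀ t, γ t a b = 0) ∨
      ∃ t, (∑ t, γ t ⊗ₖ M t) (a, i) (b, j) = (γ t ⊗ₖ M t) (a, i) (b, j) ∧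
        ∀ s, s ≠ t → γ s a b = 0 := by
    intro a b i j
    rw [Matrix.sum_apply]
    by_cases h : ∀ t, γ t a b = 0
    · exact Or.inl ⟨sum_eq_zero fun t _ => by simp [h], h⟩
    · obtain ⟨t, ht⟩ := not_forall.1 h
      have h0 : ∀ s, s ≠ t → γ s a b = 0 := fun s hs => (h3 s t a b hs).resolve_right ht
      exact Or.inr ⟨t, sum_eq_single t (fun s _ hs => by simp [h0 s hs]) (by simp), h0⟩
  refine ⟨IsW.of_row hw ?_ ?_, fun a b i j => ?_⟩
  · rintro ⟨a, i⟩ ⟨b, j⟩
    rcases key a b i j with h | ⟨t, h, -⟩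
    · exact Or.inl h.1
    · rw [h]; exact ((h1 t).kron (h4 t)).ent _ _
  · let F : T → T → Matrix (Ω × I) (Ω × I) ℤ := fun s t =>
      (γ s * (γ t)ᵀ) ⊗ₖ (M s * (M t)ᵀ)
    have e1 : (∑ t, γ t ⊗ₖ M t) * (∑ t, γ t ⊗ₖ M t)ᵀ = ∑ s, ∑ t, F s t := by
      rw [transpose_sum, Finset.sum_mul_sum]
      refine sum_congr rfl fun s _ => sum_congr rfl fun t _ => ?_
      rw [← kroneckerMap_transpose, ← mul_kronecker_mul]
    have e2 : ∀ s t, F s t + F t s = if t = s then (2 * w s : ℤ) • 1 else 0 := by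
      intro s t
      split_ifs with h
      · subst h
        simp only [F, (h1 t).row, (h4 t).row, kronecker_smul, one_kronecker_one,
          Nat.cast_one, one_smul, two_mul, add_smul]
      · simp only [F]
        rw [h5 t s, ← add_kronecker, h2 s t (Ne.symm h), zero_kronecker]
    have e3 : (2 : ℤ) • ∑ s, ∑ t, F s t = (2 : ℤ) • ((∑ t, w t : ℕ) : ℤ) • 1 := by
      rw [two_smul]
      nth_rewrite 2 [sum_comm]
      simp only [← sum_add_distrib, e2, sum_ite_eq', mem_univ, if_true, ← sum_smul, ← mul_sum,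
        smul_smul, Nat.cast_sum]
    rw [e1]
    exact smul_right_injective _ two_ne_zero e3
  · rcases key a b i j with h | ⟨t, h, h0⟩
    · simp [h.1, h.2]
    · rw [h, kronecker_apply, abs_mul]
      rw [sum_eq_single t (fun s _ hs => by rw [h0 s hs, abs_zero, zero_mul]) (by simp)]

/-- the sign of a bit -/
def sgn2 (a : ZMod 2) : ℤ := if a = 0 then 1 else -1

/-- the translations under the five signed permutations -/
def octSh : Option Sd → Sd × ZMod 2
  | none => (0, 1)
  | some s => (s, if s = (0, 1) then 1 else 0)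

/-- the signs of the five signed permutations -/
def octSg : Option Sd → Sd × ZMod 2 → ℤ
  | none, a => sgn2 a.2
  | some s, a => if s = 0 then 1 else if s = (0, 1) then sgn2 a.1.2 else
      if s = (1, 0) then sgn2 a.1.1 * sgn2 a.2 else sgn2 a.1.2 * sgn2 a.2

/-- five pairwise anti-amicable signed permutations of order eight -/
def oct (t : Option Sd) : Matrix (Sd × ZMod 2) (Sd × ZMod 2) ℤ :=
  Matrix.of fun a b => if b = a + octSh t then octSg t a else 0

lemma octSg_sign : ∀ t a, octSg t a = 1 ∨ octSg t a = -1 := by decide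

lemma octSh_inj : ∀ s t, octSh s = octSh t → s = t := by decide

lemma oct_mul (s t : Option Sd) (a b : Sd × ZMod 2) : (oct s * (oct t)ᵀ) a b =
    if a + octSh s = b + octSh t then octSg s a * octSg t b else 0 := by
  simp only [Matrix.mul_apply, transpose_apply, oct, Matrix.of_apply, ite_mul, zero_mul,
    sum_ite_eq', mem_univ, if_true]
  rw [mul_ite, mul_zero]

lemma oct_abs (t : Option Sd) (a b : Sd × ZMod 2) :
    |oct t a b| = if b = a + octSh t then 1 else 0 := by
  simp only [oct, Matrix.of_apply]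
  split_ifs
  · rcases octSg_sign t a with e | e <;> simp [e]
  · simp

lemma oct_isW (t : Option Sd) : IsW (oct t) 1 := by
  refine IsW.of_row one_pos (fun a b => ?_) ?_
  · simp only [oct, Matrix.of_apply]
    split_ifs
    · exact Or.inr (octSg_sign t a)
    · exact Or.inl rfl
  · ext a b
    simp only [oct_mul, add_left_inj, Nat.cast_one, one_smul, Matrix.one_apply]
    split_ifs with h
    · subst h
      rcases octSg_sign t a with e | e <;> simp [e]
    · rfl

lemma oct_anti0 : ∀ s t : Option Sd, s ≠ t → ∀ a b : Sd × ZMod 2,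
    (if a + octSh s = b + octSh t then octSg s a * octSg t b else 0) +
      (if a + octSh t = b + octSh s then octSg t a * octSg s b else 0) = 0 := by decide

lemma oct_anti (s t : Option Sd) (h : s ≠ t) : oct s * (oct t)ᵀ + oct t * (oct s)ᵀ = 0 := by
  ext a b
  rw [Matrix.add_apply, oct_mul, oct_mul]
  exact oct_anti0 s t h a b

lemma oct_disj (s t : Option Sd) (a b : Sd × ZMod 2) (h : s ≠ t) :
    oct s a b = 0 ∨ oct t a b = 0 := by
  simp only [oct, Matrix.of_apply]
  by_cases h1 : b = a + octSh s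
  · exact Or.inr (if_neg fun h2 => h (octSh_inj s t (add_left_cancel (h1.symm.trans h2))))
  · exact Or.inl (if_neg h1)

/-- the line piece of a symmetric conference matrix -/
theorem lv_one {p k uA u : ℕ} {w : Sd → ℕ} (hp : p.Prime) (h1 : p % 4 = 1) (hk : 0 < k)
    (A : SW uA k) (hF : Fam u w) (h0 : w 0 = 0) : LV 2 k (p + 1) (∑ s, w s) (uA * u) := by
  obtain ⟨A, a1, a2⟩ := A
  obtain ⟨L, _, _, D, hL, d1, d2, d3⟩ := hF
  obtain ⟨C, c1, c2, c3⟩ := conf_symm hp h1
  have hD0 : ∀ x y, D 0 x y = 0 := fun x y => by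
    have := (d1 0).sum_abs x
    rw [h0, Nat.cast_zero, sum_eq_zero_iff_of_nonneg fun _ _ => abs_nonneg _] at this
    exact abs_eq_zero.1 (this y (mem_univ _))
  have h01 : ∀ z : ℤ, z = 0 ∨ z = 1 ∨ z = -1 → |z| = 0 ∨ |z| = 1 := by
    rintro _ (rfl | rfl | rfl) <;> simp
  choose o o1 _ o3 using fun v => exists_enum (a := fun v' => |A v v'|)
    (fun v' => h01 _ (a1.ent v v')) (a1.sum_abs v)
  choose g g1 g2 g3 using fun x => exists_enum (a := fun q : Sd × L => |D q.1 x q.2|)
    (δ := ∑ s, w s) (fun q => h01 _ ((d1 q.1).ent x q.2)) (by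
      rw [Fintype.sum_prod_type, Nat.cast_sum]
      exact sum_congr rfl fun s _ => (d1 s).sum_abs x)
  refine ⟨Fin uA, L, _, _, o, fun x r => (g x r).1, fun x r => (g x r).2,
    by rw [Fintype.card_fin, hL], o1, fun x r h => ?_, g1, fun X _ φ => ?_⟩
  · have := g2 x r
    rw [show (g x r).1 = 0 from h, hD0] at this
    simp at this
  let M : Option Sd → Matrix (Fin uA × L × Fin (p + 1)) (Fin uA × L × Fin (p + 1)) ℤ := fun t =>
    t.elim (A ⊗ₖ ((1 : Matrix L L ℤ) ⊗ₖ 1)) fun s =>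
      if s = 0 then A ⊗ₖ ((1 : Matrix L L ℤ) ⊗ₖ C) else 1 ⊗ₖ (D s ⊗ₖ 1)
  let W : Option Sd → ℕ := fun t => t.elim k fun s => if s = 0 then k * p else w s
  have m1 : ∀ t, IsW (M t) (W t) := by
    rintro (_ | s)
    · have := a1.kron ((IsW.one (I := L)).kron (IsW.one (I := Fin (p + 1))))
      rwa [mul_one, mul_one] at this
    · simp only [M, W, Option.elim]
      split_ifs
      · simpa using a1.kron ((IsW.one (I := L)).kron c1)
      · simpa using (IsW.one (I := Fin uA)).kron ((d1 s).kron (IsW.one (I := Fin (p + 1))))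
  have m2 : ∀ s t, M s * (M t)ᵀ = M t * (M s)ᵀ := by
    rintro (_ | s) (_ | t) <;> simp only [M, Option.elim] <;> (try split_ifs) <;>
      simp only [← kroneckerMap_transpose, ← mul_kronecker_mul, a2, c2, d2, transpose_one,
        Matrix.one_mul, Matrix.mul_one]
    rw [d3]
  have m3 : ∑ t, W t = k * (p + 1) + ∑ s, w s := by
    have : ∀ s, W (some s) = (if s = 0 then k * p else 0) + w s := fun s => by
      simp only [W, Option.elim]
      split_ifs with h <;> simp [h, h0]
    simp only [Fintype.sum_option, this, sum_add_distrib, sum_ite_eq', mem_univ, if_true]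
    simp only [W, Option.elim]
    ring
  obtain ⟨y1, y2⟩ := clifford oct M W oct_isW oct_anti oct_disj m1 m2 (by rw [m3]; positivity)
  rw [m3] at y1
  refine ⟨_, _, _, _, fun q => φ q.1.1 q.2.1 q.2.2.1 q.2.2.2, y1, ?_⟩
  have e : ∀ ε β v x i, star (∑ t, oct t ⊗ₖ M t) (fun q => φ q.1.1 q.2.1 q.2.2.1 q.2.2.2)
      ((ε, β), v, x, i) = ∑ σ, ∑ j, pt (φ ε (o v σ) x j) +
        ∑ r, pt (φ (ε + (g x r).1) v (g x r).2 i) := by
    intro ε β v x i
    have e1 : star (∑ t, oct t ⊗ₖ M t) (fun q => φ q.1.1 q.2.1 q.2.2.1 q.2.2.2)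
        ((ε, β), v, x, i) = ∑ t, ∑ q, |M t (v, x, i) q| •
          pt (φ (ε + (octSh t).1) q.1 q.2.1 q.2.2) := by
      rw [H68.star, Fintype.sum_prod_type]
      simp only [y2, oct_abs, sum_smul, ite_mul, one_mul, zero_mul, ite_smul, zero_smul]
      rw [sum_comm]
      simp only [sum_comm (s := (univ : Finset (Sd × ZMod 2))), sum_ite_eq', mem_univ, if_true]
      rw [sum_comm]
      rfl
    rw [e1, ← o3 v _ fun v' => ∑ j, pt (φ ε v' x j),
      ← g3 x _ fun q => pt (φ (ε + q.1) v q.2 i), Fintype.sum_option]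
    have e2 : ∑ q, |M none (v, x, i) q| • pt (φ (ε + (octSh none).1) q.1 q.2.1 q.2.2) =
        ∑ v', |A v v'| • pt (φ ε v' x i) := by
      simp [M, octSh, Fintype.sum_prod_type, Matrix.one_apply, apply_ite abs]
    have e3 : ∀ s, ∑ q, |M (some s) (v, x, i) q| •
        pt (φ (ε + (octSh (some s)).1) q.1 q.2.1 q.2.2) =
        (if s = 0 then ∑ v', |A v v'| • (∑ j, pt (φ ε v' x j) - pt (φ ε v' x i)) else 0) +
          ∑ x', |D s x x'| • pt (φ (ε + s) v x' i) := by
      intro s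
      simp only [M, octSh, Option.elim]
      split_ifs with h
      · subst h
        simp only [hD0, abs_zero, zero_smul, sum_const_zero, add_zero, Fintype.sum_prod_type,
          kronecker_apply, Matrix.one_apply, abs_mul, c3, apply_ite abs, ite_mul,
          one_mul, zero_mul, mul_ite, mul_zero, mul_one, ite_smul]
        refine sum_congr rfl fun v' _ => ?_
        rw [sum_comm]
        simp only [sum_ite_eq, mem_univ, if_true]
        rw [smul_sub, eq_sub_iff_add_eq, smul_sum,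
          ← sum_ite_eq_of_mem univ i (fun j => |A v v'| • pt (φ ε v' x j)) (mem_univ _),
          ← sum_add_distrib]
        refine sum_congr rfl fun j _ => ?_
        split_ifs <;> simp
      · simp [Fintype.sum_prod_type, Matrix.one_apply, apply_ite abs]
    simp only [e2, e3, sum_add_distrib, sum_ite_eq', mem_univ, if_true, Fintype.sum_prod_type,
      ← add_assoc, smul_sub, sum_sub_distrib, add_sub_cancel]
  simp only [Fintype.sum_prod_type, e, sum_const, card_univ, ZMod.card, smul_sum]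

end

section

open Matrix Finset H68
open scoped Kronecker

/-- the quaternion units as signed permutation matrices -/
def qu (s : Sd) : Matrix Sd Sd ℤ := fun a b =>
  if b = a + s then (if s.1 * a.1 + (s.1 + s.2) * a.2 = 0 then 1 else -1) else 0

lemma qu_abs : ∀ s a b : Sd, |qu s a b| = if s = b - a then 1 else 0 := by decide

lemma qu_ent (s a b : Sd) : qu s a b = 0 ∨ qu s a b = 1 ∨ qu s a b = -1 := by
  unfold qu
  split_ifs <;> simp

lemma qu_row : ∀ s a c : Sd, ∑ b, qu s a b * qu s c b = if a = c then 1 else 0 := by decide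

lemma qu_anti : ∀ s t a c : Sd, s ≠ t →
    ∑ b, qu s a b * qu t c b + ∑ b, qu t a b * qu s c b = 0 := by decide

lemma qu_disj (s t a b : Sd) (h : s ≠ t) : qu s a b = 0 ∨ qu t a b = 0 := by
  by_cases e : b = a + s
  · refine Or.inr (if_neg fun e' => h ?_)
    exact add_left_cancel (e.symm.trans e')
  · exact Or.inl (if_neg e)

lemma sd_sub : ∀ a b : Sd, a - b = b - a := by decide

/-- four commuting symmetric weighing matrices put into the quaternion array -/
lemma quat {w : Sd → ℕ} (hw : 0 < ∑ s, w s) {L : Type} [Fintype L] [DecidableEq L]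
    {D : Sd → Matrix L L ℤ} (h1 : ∀ s, IsW (D s) (w s)) (h2 : ∀ s, (D s)ᵀ = D s)
    (h3 : ∀ s t, D s * D t = D t * D s) : ∃ B : Matrix (Sd × L) (Sd × L) ℤ, IsW B (∑ s, w s) ∧
      ∀ a b x y, |B (a, x) (b, y)| = |D (b - a) x y| := by
  obtain ⟨k1, k2⟩ := clifford qu D w
    (fun t => IsW.of_row one_pos (qu_ent t) (by
      ext a c
      simp only [Matrix.mul_apply, transpose_apply, qu_row, Nat.cast_one, one_smul,
        Matrix.one_apply]))
    (fun s t h => by
      ext a c
      simp only [Matrix.add_apply, Matrix.mul_apply, transpose_apply, Matrix.zero_apply]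
      exact qu_anti s t a c h)
    qu_disj h1 (fun s t => by rw [h2, h2, h3]) hw
  refine ⟨_, k1, fun a b x y => ?_⟩
  rw [k2]
  simp [qu_abs]

lemma abs01 {I : Type} [Fintype I] [DecidableEq I] {Y : Matrix I I ℤ} {w : ℕ} (h : IsW Y w)
    (i j : I) : |Y i j| = 0 ∨ |Y i j| = 1 := by
  rcases h.ent i j with e | e | e <;> simp [e]

/-- the line piece given by the sum of `A ⊗ H` and the quaternion array -/
theorem lv_two {N k uA u : ℕ} {w : Sd → ℕ} (H : HadOn (Fin N)) (hw : 0 < ∑ s, w s)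
    (A : SW uA k) (hF : Fam u w) : LV 1 k N (∑ s, w s) (uA * (2 * u)) := by
  obtain ⟨A, a1, a2⟩ := A
  obtain ⟨L, _, _, D, hL, d1, d2, d3⟩ := hF
  obtain ⟨Hm, h1, h2⟩ := HadOn.isW H
  rw [Fintype.card_fin] at h1
  obtain ⟨B, b1, b2⟩ := quat hw d1 d2 d3
  have a3 : ∀ v v', A v' v = A v v' := fun v v' => congrFun (congrFun a2 v) v'
  have b3 : ∀ a b x y, |B (b, y) (a, x)| = |D (b - a) x y| := fun a b x y => by
    rw [b2, sd_sub a b]
    exact congrArg abs (congrFun (congrFun (d2 (b - a)) x) y)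
  choose o o1 o2 o3 using fun v =>
    exists_enum (a := fun v' => |A v v'|) (δ := k) (abs01 a1 v) (a1.sum_abs v)
  choose g g1 g2 g3 using fun x : L =>
    exists_enum (J := Sd × L) (a := fun q => |D q.1 x q.2|) (δ := ∑ s, w s)
      (fun q => abs01 (d1 q.1) x q.2) (by
        rw [Fintype.sum_prod_type]
        simp only [(d1 _).sum_abs, Nat.cast_sum])
  refine ⟨Fin uA, ZMod 2 × L, inferInstance, inferInstance, o, fun x r => (1, (g x.2 r).1.1),
    fun x r => (x.1 + (g x.2 r).1.2, (g x.2 r).2), by simp [hL], o1, fun x r h => ?_,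
    fun x r r' h => ?_, fun X _ φ => ?_⟩
  · exact absurd (congrArg Prod.fst h) (show (1 : ZMod 2) ≠ 0 by decide)
  · simp only [Prod.mk.injEq, true_and, add_right_inj] at h
    exact g1 x.2 (Prod.ext (Prod.ext h.1 h.2.1) h.2.2)
  have key1 : ∀ (ε : Sd) (v : Fin uA) (y : ZMod 2 × L),
      ∑ v', ∑ j, |A v v'| • pt (φ ε v' y j) = ∑ σ, ∑ j, pt (φ ε (o v σ) y j) := fun ε v y => by
    rw [← o3 v _ fun v' => ∑ j, pt (φ ε v' y j)]
    simp only [smul_sum]
  have key2 : ∀ (c : ZMod 2) (η : Sd) (v : Fin uA) (x : L) (i : Fin N),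
      ∑ η' : Sd, ∑ x', |D (η' - η) x x'| • pt (φ (c, η'.1) v (η'.2, x') i) =
      ∑ r, pt (φ (c, η.1 + (g x r).1.1) v (η.2 + (g x r).1.2, (g x r).2) i) := by
    intro c η v x i
    rw [← g3 x _ fun q => pt (φ (c, η.1 + q.1.1) v (η.2 + q.1.2, q.2) i),
      ← Equiv.sum_comp (Equiv.addLeft η), Fintype.sum_prod_type (α₁ := Sd)]
    simp only [Equiv.coe_addLeft, add_sub_cancel_left, Prod.fst_add, Prod.snd_add]
  refine ⟨_, _, _, sumM (A ⊗ₖ Hm) B,
    Sum.elim (fun p => φ (0, p.1.1.1) p.2.1 (p.1.1.2, p.1.2) p.2.2)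
      (fun p => φ (1, p.1.1.1) p.2.1 (p.1.1.2, p.1.2) p.2.2), (a1.kron h1).sum b1, ?_⟩
  have two : ∀ f : ZMod 2 → Multiset (X → ℤ), ∑ c, f c = f 0 + f 1 := fun f =>
    Fin.sum_univ_two f
  have re : ∀ f : ZMod 2 → Fin uA → ZMod 2 × L → Fin N → Multiset (X → ℤ),
      ∑ a, ∑ v, ∑ y, ∑ i, f a v y i =
      ∑ p : (Sd × L) × Fin uA × Fin N, f p.1.1.1 p.2.1 (p.1.1.2, p.1.2) p.2.2 := fun f => by
    simp only [Fintype.sum_prod_type]
    refine sum_congr rfl fun a _ => ?_
    rw [sum_comm]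
    exact sum_congr rfl fun b _ => sum_comm
  rw [one_smul, Fintype.sum_prod_type, two, re, re, Fintype.sum_sum_type]
  congr 1 <;> refine sum_congr rfl fun p _ => ?_ <;> congr 1
  · obtain ⟨⟨η, x⟩, v, i⟩ := p
    simp only [Prod.mk_add_mk, zero_add]
    rw [← key1, ← key2]
    simp [H68.star, sumM, Fintype.sum_sum_type, Fintype.sum_prod_type, Matrix.one_apply,
      apply_ite abs, h2, b2, abs_mul]
  · obtain ⟨⟨η, x⟩, v, i⟩ := p
    simp only [Prod.mk_add_mk, show (1 : ZMod 2) + 1 = 0 from rfl]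
    rw [← key1, ← key2, add_comm]
    simp [H68.star, sumM, Fintype.sum_sum_type, Fintype.sum_prod_type, Matrix.one_apply,
      apply_ite abs, h2, b3, a3, abs_mul]

end

end Pool.Agent.MP_d8b1b3_co.H7
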