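import Mathlib
import Pool.Agent.MP_d8b1b3_co.H68.Design
import Pool.Agent.MP_d8b1b3_co.H7.Line
import Pool.Agent.MP_d8b1b3_co.H42d.SI
import Pool.Agent.MP_d8b1b3_co.H88d.Count

/-!
The design: the stars of a line piece, developed under independent translations of the four sides,
shifts of the tracks and of the window and a rotation of the sides, are completed to full rows.
Hence Hadamard matrices of order `16 α β W` from those of orders `4 α`, `4 β`, for odd `W` slightly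
larger than a number `a ^ 2 * (p + 1)`, and density one for the multiples of sixteen.
-/

set_option autoImplicit false

namespace Pool.Agent.MP_d8b1b3_co.H7

section

open Finset H68

variable {F : Type} [AddCommGroup F] [Fintype F] [DecidableEq F]

omit [DecidableEq F] in
lemma shift₂ {M : Type} [AddCommMonoid M] {a b : Sd} (h : a ≠ b) (x y : F) (Φ : F → F → M) :
    ∑ ν : Sd → F, Φ (ν a + x) (ν b + y) = ∑ ν : Sd → F, Φ (ν a) (ν b) := by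
  rw [← Equiv.sum_comp (Equiv.addRight fun ζ => if ζ = a then x else y)
    fun ν : Sd → F => Φ (ν a) (ν b)]
  simp [h.symm]

omit [DecidableEq F] in
lemma marginal {V : Type} {a b : Sd} (h : a ≠ b) (Φ : F → F → Multiset V) :
    ∑ ν : Sd → F, Φ (ν a) (ν b) = Fintype.card F ^ 2 • ∑ x, ∑ y, Φ x y := by
  classical
  have h1 : Fintype.card F ^ 2 • ∑ ν : Sd → F, Φ (ν a) (ν b) =
      Fintype.card F ^ 2 • Fintype.card F ^ 2 • ∑ x, ∑ y, Φ x y := by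
    have e : ∑ x : F, ∑ y : F, ∑ ν : Sd → F, Φ (ν a + x) (ν b + y) =
        ∑ ν : Sd → F, ∑ x, ∑ y, Φ x y := by
      rw [sum_congr rfl fun x _ => sum_comm, sum_comm]
      refine sum_congr rfl fun ν _ => ?_
      rw [← Equiv.sum_comp (Equiv.addLeft (ν a)) fun x => ∑ y, Φ x y]
      exact sum_congr rfl fun x _ => Equiv.sum_comp (Equiv.addLeft (ν b)) (Φ (ν a + x))
    simp only [shift₂ h, sum_const, card_univ, smul_smul, Fintype.card_fun, Fintype.card_prod,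
      ZMod.card] at e
    rw [smul_smul, ← pow_add, sq, e]
  ext v
  have h2 := congrArg (Multiset.count v) h1
  rw [Multiset.count_nsmul, Multiset.count_nsmul] at h2
  exact Nat.eq_of_mul_eq_mul_left (pow_pos Fintype.card_pos 2) h2

variable {Λ Γ : Type} [Fintype Λ] [DecidableEq Λ]

/-- pairs of full lines on opposite sides -/
def AA (F Λ : Type) [Fintype F] [DecidableEq F] [Fintype Λ] [DecidableEq Λ] :
    Multiset ((Sd × F) × Λ → ℤ) :=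
  ∑ p : ZMod 2, ∑ f : F, ∑ f' : F, {Ln Λ ((p, 0), f) + Ln Λ ((p, 1), f')}

lemma sum_Sd {M : Type} [AddCommMonoid M] (Φ : Sd → M) :
    ∑ ζ, Φ ζ = ∑ p : ZMod 2, (Φ (p, 0) + Φ (p, 1)) := by
  rw [Fintype.sum_prod_type]
  exact sum_congr rfl fun p _ => Fin.sum_univ_two _

lemma sum_sh {M : Type} [AddCommMonoid M] (a : Sd) (Φ : Sd → M) : ∑ ζ, Φ (ζ + a) = ∑ ζ, Φ ζ :=
  Equiv.sum_comp (Equiv.addRight a) Φ

lemma sum_Ln' (ν : Sd → F) : ∑ ζ, ∑ f, Ln Λ (ζ, ν ζ + f) = 1 := by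
  rw [← sum_Ln (F := Sd × F), Fintype.sum_prod_type (α₁ := Sd) (α₂ := F)]
  exact sum_congr rfl fun ζ _ => Equiv.sum_comp (Equiv.addLeft (ν ζ)) fun f => Ln Λ (ζ, f)

lemma pure_rows : (Fintype.card F, AA F Λ) ∈ Rows ((Sd × F) × Λ) := by
  have h := sum_mem (t := univ) fun (d : F) _ => Rows.one (X := (Sd × F) × Λ)
    (ρ := ∑ p : ZMod 2, ∑ f : F, {Ln Λ ((p, 0), f) + Ln Λ ((p, 1), d + f)}) (by
      rw [← sum_Ln' fun ζ => if ζ.2 = 0 then 0 else d, sum_Sd]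
      simp [Multiset.sum_sum, sum_add_distrib])
  rw [← prod_mk_sum, sum_const, card_univ, smul_eq_mul, mul_one, sum_comm] at h
  refine (congrArg (fun μ => (Fintype.card F, μ) ∈ Rows _) ?_).mp h
  refine sum_congr rfl fun p _ => ?_
  rw [sum_comm]
  exact sum_congr rfl fun f _ => Equiv.sum_comp (Equiv.addRight f)
    fun f' => ({Ln Λ ((p, 0), f) + Ln Λ ((p, 1), f')} : Multiset _)

lemma base {K : Type} [Fintype K] {g : K → F} (hg : Function.Injective g) {e : ℕ}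
    (he : Fintype.card F = Fintype.card K + e) {ρ : (Sd → F) → Multiset ((Sd × F) × Λ → ℤ)}
    (h : ∀ ν, (ρ ν).sum = ∑ ζ, ∑ κ, Ln Λ (ζ, ν ζ + g κ)) :
    (Fintype.card F ^ 4, ∑ ν, ρ ν + (e * Fintype.card F ^ 2) • AA F Λ) ∈
      Rows ((Sd × F) × Λ) := by
  have h1 := sum_mem (t := univ) fun (ν : Sd → F) _ => Rows.one
    (ρ := ρ ν + ∑ f ∈ (univ.map ⟨g, hg⟩)ᶜ, ∑ p : ZMod 2,
      {Ln Λ ((p, 0), ν (p, 0) + f) + Ln Λ ((p, 1), ν (p, 1) + f)}) (by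
      rw [Multiset.sum_add, h, ← sum_Ln' ν, sum_comm, sum_comm (t := (univ : Finset F)),
        ← sum_add_sum_compl (univ.map ⟨g, hg⟩), sum_map, Multiset.sum_sum]
      congr 1
      refine sum_congr rfl fun f _ => ?_
      rw [sum_Sd, Multiset.sum_sum]
      simp)
  rw [← prod_mk_sum, sum_const, card_univ, sum_add_distrib, sum_comm] at h1
  have e1 : ∀ f : F, ∑ ν : Sd → F, ∑ p : ZMod 2,
      ({Ln Λ ((p, 0), ν (p, 0) + f) + Ln Λ ((p, 1), ν (p, 1) + f)} : Multiset _) =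
      Fintype.card F ^ 2 • AA F Λ := fun f => by
    rw [sum_comm, AA, smul_sum]
    refine sum_congr rfl fun p _ => ?_
    have : ((p, 0) : Sd) ≠ (p, 1) := by simp
    rw [shift₂ this f f fun x y => ({Ln Λ ((p, 0), x) + Ln Λ ((p, 1), y)} : Multiset _),
      marginal this fun x y => ({Ln Λ ((p, 0), x) + Ln Λ ((p, 1), y)} : Multiset _)]
  simp only [e1, sum_const, card_compl, card_map, card_univ, he, Nat.add_sub_cancel_left,
    smul_smul, smul_eq_mul, mul_one, Fintype.card_fun, Fintype.card_prod, ZMod.card] at h1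
  rw [← he] at h1
  exact h1

/-- the modified lines of a given shape -/
def tt (F : Type) [Fintype F] [DecidableEq F] (s : Γ → Λ) (a : Sd) (k : Γ) (y : Λ) :
    Multiset ((Sd × F) × Λ → ℤ) :=
  ∑ ζ, ∑ ν : Sd → F, {Tr s (ζ + a, ν (ζ + a)) (ζ, ν ζ) k y}

/-- the nonzero sides -/
def nz : Fin 3 → Sd := ![(0, 1), (1, 0), (1, 1)]

/-- the rotation of the sides -/
def rot : Sd ≃+ Sd where
  toFun a := (a.2, a.1 + a.2)
  invFun a := (a.1 + a.2, a.1)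
  left_inv := by decide
  right_inv := by decide
  map_add' := by decide

/-- the powers of the rotation -/
def rt : Fin 3 → Sd ≃+ Sd := ![AddEquiv.refl _, rot, rot.trans rot]

lemma nz_ne : ∀ i, nz i ≠ 0 := by decide

lemma sum_rt {M : Type} [AddCommMonoid M] {a : Sd} (ha : a ≠ 0) (Φ : Sd → M) :
    ∑ i, Φ (rt i a) = ∑ i, Φ (nz i) := by
  have h : ∀ a : Sd, a ≠ 0 → ∃ e : Fin 3 → Fin 3, Function.Bijective e ∧
      ∀ i, rt i a = nz (e i) := by decide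
  obtain ⟨e, e1, e2⟩ := h a ha
  simp only [e2]
  exact e1.sum_comp fun i => Φ (nz i)

/-- single lines -/
def sing (F Λ : Type) [Fintype F] [DecidableEq F] [Fintype Λ] [DecidableEq Λ] :
    Multiset ((Sd × F) × Λ → ℤ) := ∑ ν : Sd → F, ∑ ζ, {Ln Λ (ζ, ν ζ)}

lemma sing_rows {e : ℕ} (he : Fintype.card F = 1 + e) :
    (Fintype.card F ^ 4, sing F Λ + (e * Fintype.card F ^ 2) • AA F Λ) ∈ Rows ((Sd × F) × Λ) :=
  base (K := Unit) (g := fun _ => 0) (fun _ _ _ => rfl) (by simpa using he)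
    fun ν => by simp [Multiset.sum_sum]

lemma swap_rows {e : ℕ} (he : Fintype.card F = 1 + e) (s : Γ → Λ) {a : Sd} (ha : a ≠ 0)
    (k k' : Γ) : (2 * Fintype.card F ^ 4, (tt F s a k (s k') + tt F s a k' (s k)) +
      (2 * (e * Fintype.card F ^ 2)) • AA F Λ) ∈ Rows ((Sd × F) × Λ) := by
  have h0 : ∀ a : Sd, a ≠ 0 → ∃ φ : Sd → Bool, ∀ ζ, φ (ζ + a) = !φ ζ := by decide
  obtain ⟨φ, hφ⟩ := h0 a ha
  have h : ∀ w : Sd → Γ, (Fintype.card F ^ 4, ∑ ν : Sd → F,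
      ∑ ζ, {Tr s (ζ + a, ν (ζ + a)) (ζ, ν ζ) (w ζ) (s (w (ζ + a)))} +
      (e * Fintype.card F ^ 2) • AA F Λ) ∈ Rows ((Sd × F) × Λ) := fun w =>
    base (K := Unit) (g := fun _ => 0) (fun _ _ _ => rfl) (by simpa using he) fun ν => by
      simp only [Multiset.sum_sum, Multiset.sum_singleton, Tr, sum_sub_distrib, sum_add_distrib,
        add_zero, sum_const, card_univ, Fintype.card_unit, one_smul]
      rw [sum_sh a fun ζ => Ln Λ (ζ, ν ζ), sum_sh a fun ζ => pt ((ζ, ν ζ), s (w ζ))]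
      ring
  have h1 := add_mem (h fun ζ => if φ ζ then k else k') (h fun ζ => if φ ζ then k' else k)
  rw [Prod.mk_add_mk, ← two_mul, add_add_add_comm, ← add_smul, ← two_mul, sum_comm,
    sum_comm (s := (univ : Finset (Sd → F))), ← sum_add_distrib] at h1
  rw [tt, tt, ← sum_add_distrib]
  refine (congrArg (fun μ => (_, μ + _) ∈ Rows _) (sum_congr rfl fun ζ _ => ?_)).mp h1
  rw [hφ]
  cases φ ζ
  · simp [add_comm]
  · simp

/-- the supply of modified lines -/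
def SS (F : Type) [Fintype F] [DecidableEq F] [Fintype Γ] (s : Γ → Λ) :
    Multiset ((Sd × F) × Λ → ℤ) :=
  ∑ i, ∑ k, ∑ ζ, ∑ ν : Sd → F, ({Ln Λ (ζ + nz i, ν (ζ + nz i))} +
    ∑ y, {Tr s (ζ + nz i, ν (ζ + nz i)) (ζ, ν ζ) k y})

omit [AddCommGroup F] in
lemma SS_eq [Fintype Γ] (s : Γ → Λ) :
    SS F s = (3 * Fintype.card Γ) • sing F Λ + ∑ k, ∑ y, ∑ i, tt F s (nz i) k y := by
  have e : ∀ a : Sd, ∑ ζ, ∑ ν : Sd → F, ({Ln Λ (ζ + a, ν (ζ + a))} : Multiset _) = sing F Λ :=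
    fun a => by
      rw [sing, sum_comm]
      exact sum_congr rfl fun ν _ => sum_sh a fun ζ => ({Ln Λ (ζ, ν ζ)} : Multiset _)
  simp only [SS, sum_add_distrib, e, sum_const, card_univ, Fintype.card_fin, smul_smul]
  congr 1
  rw [sum_comm]
  refine sum_congr rfl fun k _ => ?_
  rw [sum_comm (s := (univ : Finset Λ))]
  refine sum_congr rfl fun i _ => ?_
  simp only [tt]
  rw [sum_comm (s := (univ : Finset Λ))]
  exact sum_congr rfl fun ζ _ => sum_comm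

omit [AddCommGroup F] in
lemma SS_mem [Fintype Γ] (s : Γ → Λ) (S : AddSubmonoid (Multiset ((Sd × F) × Λ → ℤ))) (n : ℕ)
    (h : ∀ φ : Option Λ → (Sd × F) × Λ, n • ∑ d, {∑ d', pt (φ d') - pt (φ d)} ∈ S) :
    n • SS F s ∈ S := by
  simp only [SS, smul_sum]
  refine sum_mem fun i _ => sum_mem fun k _ => sum_mem fun ζ _ => sum_mem fun ν _ => ?_
  have := h fun o => o.elim ((ζ, ν ζ), s k) fun y => ((ζ + nz i, ν (ζ + nz i)), y)
  simp only [Fintype.sum_option, Option.elim, add_sub_cancel_left] at this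
  exact this

/-- rows, up to pairs of full lines -/
def Ma (F Λ : Type) [Fintype F] [DecidableEq F] [Fintype Λ] [DecidableEq Λ] :
    AddSubmonoid (ℕ × Multiset ((Sd × F) × Λ → ℤ) × ℕ) where
  carrier := {p | (p.1, p.2.1 + p.2.2 • AA F Λ) ∈ Rows ((Sd × F) × Λ)}
  zero_mem' := by
    change ((0 : ℕ), 0 + 0 • AA F Λ) ∈ Rows ((Sd × F) × Λ)
    rw [zero_smul, add_zero]
    exact zero_mem _
  add_mem' := by
    rintro ⟨n, ρ, c⟩ ⟨n', ρ', c'⟩ h h'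
    have := (Rows ((Sd × F) × Λ)).add_mem h h'
    rwa [Prod.mk_add_mk, add_add_add_comm, ← add_smul] at this

omit [AddCommGroup F] in
lemma Ma.of {n c : ℕ} {ρ : Multiset ((Sd × F) × Λ → ℤ)}
    (h : (n, ρ + c • AA F Λ) ∈ Rows ((Sd × F) × Λ)) : (n, ρ, c) ∈ Ma F Λ := h

omit [AddCommGroup F] in
lemma Ma.sum {K : Type} [Fintype K] {n c : ℕ} {ρ : K → Multiset ((Sd × F) × Λ → ℤ)}
    (h : ∀ k, (n, ρ k, c) ∈ Ma F Λ) :
    (Fintype.card K * n, ∑ k, ρ k, Fintype.card K * c) ∈ Ma F Λ := by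
  have := sum_mem (t := univ) fun k _ => h k
  rwa [← prod_mk_sum, ← prod_mk_sum, sum_const, sum_const, card_univ, smul_eq_mul,
    smul_eq_mul] at this

section

variable {V L T D U : Type} [Fintype V] [Fintype L] [Fintype T] [Fintype D] [Fintype U]

/-- the star of a line piece -/
def lvs (o : V → T → V) (sl : L → U → Sd) (nb : L → U → L) (c : V → L → F) (ε : T × D ⊕ U ≃ Λ)
    (μ : Sd → F) (σ : T) (ζ : Sd) (v : V) (x : L) (i : D) : (Sd × F) × Λ → ℤ :=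
  ∑ σ', ∑ j, pt ((ζ, μ ζ + c (o v σ') x), ε (Sum.inl (σ, j))) +
    ∑ r, pt ((ζ + sl x r, μ (ζ + sl x r) + c v (nb x r)), ε (Sum.inl (σ, i)))

/-- the positions of the lines met by a group of stars -/
def gm (o : V → T → V) (sl : L → U → Sd) (nb : L → U → L) (c : V → L → F) (off : Sd → T → F)
    (v : V) (x : L) : T ⊕ T × U → F :=
  Sum.elim (fun σ => c (o v σ) x) fun p => off (sl x p.2) p.1 + c v (nb x p.2)

omit [Fintype V] [Fintype L] in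
lemma lv_rows (s : Γ → Λ) (o : V → T → V) {sl : L → U → Sd} (nb : L → U → L) (c : V → L → F)
    {off : Sd → T → F} (h0 : ∀ σ, off 0 σ = 0) (h1 : ∀ x r, sl x r ≠ 0)
    (ε : T × D ⊕ U ≃ Λ) (κ : U → Γ) (hε : ∀ u, ε (Sum.inr u) = s (κ u)) {e : ℕ}
    (he : Fintype.card F = Fintype.card T + Fintype.card T * Fintype.card U + e) (v : V) (x : L)
    (hg : Function.Injective (gm o sl nb c off v x)) (i : D) :
    (Fintype.card F ^ 4, (∑ σ, ∑ μ : Sd → F, ∑ ζ, {lvs o sl nb c ε μ σ ζ v x i} +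
      ∑ r, ∑ σ, tt F s (sl x r) (κ r) (ε (Sum.inl (σ, i)))) +
      (e * Fintype.card F ^ 2) • AA F Λ) ∈ Rows ((Sd × F) × Λ) := by
  have h := base (Λ := Λ) hg (by simpa using he)
    (ρ := fun ν => ∑ σ, ∑ ζ, {lvs o sl nb c ε (ν + fun ζ' => off (ζ' - ζ) σ) σ ζ v x i} +
      ∑ r, ∑ σ, ∑ ζ, {Tr s (ζ + sl x r, ν (ζ + sl x r) + (off (sl x r) σ + c v (nb x r)))
        (ζ, ν ζ + c (o v σ) x) (κ r) (ε (Sum.inl (σ, i)))}) fun ν => by
      have e1 : ∀ π : Sd × F, Ln Λ π = ∑ σ, ∑ j, pt (π, ε (Sum.inl (σ, j))) +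
          ∑ r, pt (π, s (κ r)) := fun π => by
        rw [Ln, ← Equiv.sum_comp ε, Fintype.sum_sum_type, Fintype.sum_prod_type]
        simp only [hε]
      have e2 : ∑ ζ, ∑ σ, Ln Λ (ζ, ν ζ + c (o v σ) x) =
          ∑ σ, ∑ ζ, ∑ σ', ∑ j, pt ((ζ, ν ζ + c (o v σ') x), ε (Sum.inl (σ, j))) +
          ∑ r, ∑ σ, ∑ ζ, pt ((ζ, ν ζ + c (o v σ) x), s (κ r)) := by
        simp only [e1, sum_add_distrib]
        congr 1
        · rw [sum_congr rfl fun ζ _ => sum_comm, sum_comm]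
        · rw [sum_comm, sum_congr rfl fun σ _ => sum_comm, sum_comm]
      have e3 : ∑ ζ, ∑ σ, ∑ r, Ln Λ (ζ, ν ζ + (off (sl x r) σ + c v (nb x r))) =
          ∑ r, ∑ σ, ∑ ζ, Ln Λ (ζ + sl x r, ν (ζ + sl x r) + (off (sl x r) σ + c v (nb x r))) := by
        rw [sum_comm, sum_congr rfl fun σ _ => sum_comm, sum_comm]
        exact sum_congr rfl fun r _ => sum_congr rfl fun σ _ =>
          (sum_sh _ fun ζ => Ln Λ (ζ, ν ζ + (off (sl x r) σ + c v (nb x r)))).symm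
      have e4 : ∀ Φ : T → Sd → U → (Sd × F) × Λ → ℤ,
          ∑ σ, ∑ ζ, ∑ r, Φ σ ζ r = ∑ r, ∑ σ, ∑ ζ, Φ σ ζ r := fun Φ => by
        rw [sum_congr rfl fun σ _ => sum_comm, sum_comm]
      simp only [Multiset.sum_add, Multiset.sum_sum, Multiset.sum_singleton, lvs, Tr, gm,
        Fintype.sum_sum_type, Fintype.sum_prod_type (α₁ := T) (α₂ := U), Sum.elim_inl,
        Sum.elim_inr, sum_add_distrib, sum_sub_distrib, Pi.add_apply, sub_self, h0, add_zero,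
        add_sub_cancel_left, add_assoc, e2, e3]
      rw [e4]
      ring
  rw [sum_add_distrib, sum_comm, sum_comm (t := (univ : Finset U))] at h
  refine (congrArg (fun μ => (_, μ + _) ∈ Rows _) ?_).mp h
  congr 1
  · refine sum_congr rfl fun σ _ => ?_
    rw [sum_comm, sum_comm (t := (univ : Finset Sd))]
    exact sum_congr rfl fun ζ _ => Equiv.sum_comp (Equiv.addRight fun ζ' => off (ζ' - ζ) σ)
      fun μ => ({lvs o sl nb c ε μ σ ζ v x i} : Multiset _)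
  · refine sum_congr rfl fun r _ => ?_
    rw [sum_comm]
    refine sum_congr rfl fun σ _ => ?_
    rw [sum_comm, tt]
    exact sum_congr rfl fun ζ _ => shift₂ (by simpa using h1 x r) _ _
      fun f f' => ({Tr s (ζ + sl x r, f) (ζ, f') (κ r) (ε (Sum.inl (σ, i)))} : Multiset _)

variable [AddCommGroup Γ] [Fintype Γ]

/-- all stars of the developed line pieces -/
def Sg (o : V → T → V) (sl : L → U → Sd) (nb : L → U → L) (c : V → L → F)
    (ε : Γ → T × D ⊕ U ≃ Λ) : Multiset ((Sd × F) × Λ → ℤ) :=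
  ∑ ρ, ∑ y, ∑ v, ∑ x, ∑ i, ∑ σ, ∑ μ : Sd → F, ∑ ζ,
    {lvs o (fun x r => rt ρ (sl x r)) nb c (ε y) μ σ ζ v x i}

omit [Fintype Λ] [AddCommGroup Γ] in
lemma Sg_mem (o : V → T → V) (sl : L → U → Sd) (nb : L → U → L) (c : V → L → F)
    (ε : Γ → T × D ⊕ U ≃ Λ) (S : AddSubmonoid (Multiset ((Sd × F) × Λ → ℤ))) (m : ℕ)
    (h : ∀ φ : Sd → V → L → D → (Sd × F) × Λ, m • ∑ ζ, ∑ v, ∑ x, ∑ i,
      {∑ σ, ∑ j, pt (φ ζ (o v σ) x j) + ∑ r, pt (φ (ζ + sl x r) v (nb x r) i)} ∈ S) :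
    m • Sg o sl nb c ε ∈ S := by
  rw [Sg, smul_sum]
  refine sum_mem fun ρ _ => ?_
  rw [smul_sum]
  refine sum_mem fun y _ => ?_
  have e : ∀ Φ : V → L → D → T → (Sd → F) → Sd → Multiset ((Sd × F) × Λ → ℤ),
      ∑ v, ∑ x, ∑ i, ∑ σ, ∑ μ, ∑ ζ, Φ v x i σ μ ζ = ∑ σ, ∑ μ, ∑ ζ, ∑ v, ∑ x, ∑ i, Φ v x i σ μ ζ := by
    intro Φ
    have := sum_comm (s := (univ : Finset (V × L × D))) (t := (univ : Finset (T × (Sd → F) × Sd)))
      (f := fun p q => Φ p.1 p.2.1 p.2.2 q.1 q.2.1 q.2.2)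
    simpa only [Fintype.sum_prod_type (α₁ := V), Fintype.sum_prod_type (α₁ := L),
      Fintype.sum_prod_type (α₁ := T), Fintype.sum_prod_type (α₁ := Sd → F)] using this
  rw [e, smul_sum]
  refine sum_mem fun σ _ => ?_
  rw [smul_sum]
  refine sum_mem fun μ _ => ?_
  have := h fun ζ v x j => ((rt ρ ζ, μ (rt ρ ζ) + c v x), ε y (Sum.inl (σ, j)))
  simp only [map_add] at this
  rw [← Equiv.sum_comp (rt ρ).toEquiv]
  exact this

theorem design (s : Γ → Λ) (o : V → T → V) {sl : L → U → Sd} (nb : L → U → L) (c : V → L → F)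
    {off : Sd → T → F} (h0 : ∀ σ, off 0 σ = 0) (h1 : ∀ x r, sl x r ≠ 0)
    (ε : Γ → T × D ⊕ U ≃ Λ) (τ : U → Γ) (hε : ∀ l u, ε l (Sum.inr u) = s (τ u + l)) {e e' : ℕ}
    (he : Fintype.card F = Fintype.card T + Fintype.card T * Fintype.card U + e)
    (he' : Fintype.card F = 1 + e')
    (hg : ∀ ρ v x, Function.Injective (gm o (fun x r => rt ρ (sl x r)) nb c off v x)) {m n : ℕ}
    (hm : m * (Fintype.card V * Fintype.card L) = 2 * n) :
    (6 * n * Fintype.card Γ * (Fintype.card D + Fintype.card U ^ 2 + Fintype.card U) *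
        Fintype.card F ^ 4,
      m • Sg o sl nb c ε + (2 * n * Fintype.card U) • SS F s,
      6 * n * Fintype.card Γ * (Fintype.card D * e + (Fintype.card U ^ 2 + Fintype.card U) * e') *
        Fintype.card F ^ 2) ∈ Ma F Λ := by
  have hA := Ma.sum fun ρ => Ma.sum fun l => Ma.sum fun v => Ma.sum fun x => Ma.sum fun i =>
    Ma.of <| lv_rows s o nb c h0 (sl := fun x r => rt ρ (sl x r))
      (fun x r => by simpa using h1 x r) (ε l) (fun u => τ u + l) (hε l) he v x (hg ρ v x) i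
  have hB := Ma.sum fun ρ => Ma.sum fun l => Ma.sum fun u => Ma.sum fun u' =>
    Ma.of <| swap_rows he' s (nz_ne ρ) (τ u + l) (τ u' + l)
  have hC := Ma.of (sing_rows (Λ := Λ) he')
  have h := add_mem (add_mem (nsmul_mem hA m) (nsmul_mem hB n))
    (nsmul_mem hC (2 * n * Fintype.card U * (3 * Fintype.card Γ)))
  let TT : Γ → Λ → Multiset ((Sd × F) × Λ → ℤ) := fun k y => ∑ i, tt F s (nz i) k y
  have e1 : ∑ ρ, ∑ l, ∑ u, ∑ u', (tt F s (nz ρ) (τ u + l) (s (τ u' + l)) +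
      tt F s (nz ρ) (τ u' + l) (s (τ u + l))) = 2 • ∑ l, ∑ u, ∑ u', TT (τ u + l) (s (τ u' + l)) := by
    rw [sum_comm, smul_sum]
    refine sum_congr rfl fun l _ => ?_
    rw [sum_comm, sum_congr rfl fun u _ => sum_comm]
    simp only [sum_add_distrib]
    rw [two_smul]
    exact congrArg₂ (· + ·) rfl sum_comm
  have e2 : ∑ l, ∑ u, ∑ d, TT (τ u + l) (ε l (Sum.inl d)) +
      ∑ l, ∑ u, ∑ u', TT (τ u + l) (s (τ u' + l)) = Fintype.card U • ∑ k, ∑ y, TT k y := by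
    rw [← sum_add_distrib, sum_congr rfl fun l _ => sum_add_distrib.symm, sum_comm, ← card_univ,
      ← sum_const]
    refine sum_congr rfl fun u _ => ?_
    rw [← Equiv.sum_comp (Equiv.addLeft (τ u)) fun k => ∑ y, TT k y]
    refine sum_congr rfl fun l _ => ?_
    rw [← Equiv.sum_comp (ε l), Fintype.sum_sum_type]
    simp only [hε, Equiv.coe_addLeft]
  have e3 : ∑ ρ, ∑ l, ∑ v, ∑ x, ∑ i, (∑ σ, ∑ μ : Sd → F, ∑ ζ,
      {lvs o (fun x r => rt ρ (sl x r)) nb c (ε l) μ σ ζ v x i} +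
      ∑ r, ∑ σ, tt F s (rt ρ (sl x r)) (τ r + l) (ε l (Sum.inl (σ, i)))) =
      Sg o sl nb c ε + (Fintype.card V * Fintype.card L) •
        ∑ l, ∑ u, ∑ d, TT (τ u + l) (ε l (Sum.inl d)) := by
    simp only [sum_add_distrib]
    refine congrArg₂ (· + ·) rfl ?_
    rw [sum_comm, smul_sum]
    refine sum_congr rfl fun l _ => ?_
    rw [sum_comm, mul_smul, ← card_univ (α := V), ← sum_const]
    refine sum_congr rfl fun v _ => ?_
    rw [sum_comm, ← card_univ (α := L), ← sum_const]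
    refine sum_congr rfl fun x _ => ?_
    rw [sum_congr rfl fun ρ _ => sum_comm, sum_comm]
    refine sum_congr rfl fun r _ => ?_
    rw [Fintype.sum_prod_type, sum_congr rfl fun ρ _ => sum_comm, sum_comm]
    refine sum_congr rfl fun σ _ => ?_
    rw [sum_comm]
    exact sum_congr rfl fun i _ =>
      sum_rt (h1 x r) fun a => tt F s a (τ r + l) (ε l (Sum.inl (σ, i)))
  simp only [Prod.smul_mk, Prod.mk_add_mk, smul_eq_mul, Fintype.card_fin] at h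
  rw [e1, e3, smul_add, smul_smul, smul_smul, hm, mul_comm n 2, add_assoc (m • Sg o sl nb c ε),
    ← smul_add, e2] at h
  rw [SS_eq, smul_add, smul_smul, add_comm (_ • sing F Λ), ← add_assoc, mul_smul (2 * n)]
  refine (congrArg (· ∈ Ma F Λ) ?_).mp h
  refine congrArg₂ Prod.mk ?_ (congrArg₂ Prod.mk (by abel) ?_)
  · linear_combination (3 * Fintype.card Γ * Fintype.card D * Fintype.card F ^ 4) * hm
  · linear_combination (3 * Fintype.card Γ * Fintype.card D * e * Fintype.card F ^ 2) * hm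

end

end

section

open Finset H68

lemma design' {F₁ F₂ Λ Γ : Type} [AddCommGroup F₁] [Fintype F₁] [DecidableEq F₁] [AddCommGroup F₂]
    [Fintype F₂] [DecidableEq F₂] [Fintype Λ] [DecidableEq Λ] [AddCommGroup Γ] [Fintype Γ]
    {s : Γ → Λ} (hs : Function.Injective s) {m k g δ u n W f : ℕ} (h : LV m k g δ u)
    (hk : 0 < k) (hW : k * g + δ = W) (hΛ : Fintype.card Λ = W) (hδ : δ ≤ Fintype.card Γ)
    (h₁ : 4 * k + 1 ≤ Fintype.card F₁) (h₂ : u ≤ Fintype.card F₂)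
    (hf : Fintype.card (F₁ × F₂) = f) (h₃ : k + k * δ ≤ f) (hm : m * u = 2 * n) :
    ∃ σ ∈ St ((Sd × (F₁ × F₂)) × Λ) W, ∃ N c : ℕ,
      (N * f ^ 4, σ + (2 * n * δ) • SS (F₁ × F₂) s, c * f ^ 2) ∈ Ma (F₁ × F₂) Λ ∧
      f * N = c + 6 * n * Fintype.card Γ * (1 + δ) * W ∧
      N ≤ 6 * n * Fintype.card Γ * (1 + δ) * W := by
  obtain ⟨V, L, _, _, o, sl, nb, hu, l1, l2, l3, l4⟩ := h
  obtain ⟨ι⟩ : Nonempty (V × L ↪ F₂) :=
    Function.Embedding.nonempty_of_card_le (by rw [Fintype.card_prod, hu]; exact h₂)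
  obtain ⟨ω⟩ : Nonempty (Sd × Fin k ↪ {x : F₁ // x ≠ 0}) :=
    Function.Embedding.nonempty_of_card_le (by simp; omega)
  obtain ⟨τ⟩ : Nonempty (Fin δ ↪ Γ) := Function.Embedding.nonempty_of_card_le (by simpa using hδ)
  have he : ∀ l : Γ, ∃ e : Fin k × Fin g ⊕ Fin δ ≃ Λ, ∀ u, e (Sum.inr u) = s (τ u + l) := fun l =>
    exists_eps (fun u u' e => τ.injective (add_right_cancel (hs e))) (by simp; omega)
  choose ε hε using he
  obtain ⟨e, he⟩ := Nat.exists_eq_add_of_le h₃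
  obtain ⟨e', he'⟩ := Nat.exists_eq_add_of_le (show 1 ≤ f by omega)
  have h1 := design s o nb (fun v x => ((0 : F₁), ι (v, x)))
    (off := fun a σ => if a = 0 then 0 else ((ω (a, σ) : F₁), (0 : F₂))) (fun σ => if_pos rfl) l2
    ε τ hε (e := e) (e' := e') (by simpa [← hf] using he) (hf.trans he') (fun ρ v x => by
      have hz : ∀ r, rt ρ (sl x r) ≠ 0 := fun r => by simpa using l2 x r
      rintro (σ | ⟨σ, r⟩) (σ' | ⟨σ', r'⟩) h <;>
        simp only [gm, Sum.elim_inl, Sum.elim_inr, if_neg (hz _), Prod.mk_add_mk, add_zero,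
          zero_add, Prod.mk.injEq, true_and, ι.injective.eq_iff, and_true] at h
      · rw [l1 v h]
      · exact absurd h.1.symm (ω _).2
      · exact absurd h.1 (ω _).2
      · have h2 := ω.injective (Subtype.ext h.1)
        rw [Prod.mk.injEq] at h2
        rw [h2.2, l3 x (Prod.ext ((rt ρ).injective h2.1) h.2)])
    (m := m) (n := n) (by rw [hu, hm])
  have h2 := Sg_mem o sl nb (fun v x => ((0 : F₁), ι (v, x))) ε _ m (l4 _)
  simp only [Fintype.card_fin, hf, hW] at h1 h2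
  refine ⟨_, h2, _, _, h1, ?_, ?_⟩
  · rw [← hW]
    linear_combination (6 * n * Fintype.card Γ * g) * he +
      (6 * n * Fintype.card Γ * (δ ^ 2 + δ)) * he'
  · rw [← hW, mul_assoc _ (1 + δ)]
    gcongr
    nlinarith [Nat.le_mul_of_pos_left g hk, Nat.zero_le (δ * (k * g))]

lemma plain_odd {t l : ℕ} (h : G t l) (hl : 0 < l) :
    Tile (2 * l + 1) (2 ^ (t + 1) * (2 * l + 1)) (2 * (2 * l + 1)) := by
  have h1 := G_pair h hl (Fintype.card_fin (2 * l + 1)) (fun d => (false, d)) fun d => (true, d)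
  have h2 : (1, ({∑ d, pt (false, d) + ∑ d, pt (true, d)} :
      Multiset (Bool × Fin (2 * l + 1) → ℤ))) ∈ Rows (Bool × Fin (2 * l + 1)) :=
    Rows.one (by ext ⟨b, y⟩; cases b <;> simp [pt, Finset.sum_apply])
  have h3 := tile_of_mg (n := 2 ^ (t + 1) * (2 * l + 1)) h1
    (by simpa using nsmul_mem h2 (2 ^ (t + 1) * (2 * l + 1)))
  simpa using h3

lemma cell_tile {t l k g₁ g₂ δ₁ δ₂ m₁ m₂ u₁ u₂ n₁ n₂ R₁ R₂ E P₁ P₂ a : ℕ} (hG : G t l) (hl : 0 < l)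
    (L₁ : LV m₁ k g₁ δ₁ u₁) (L₂ : LV m₂ k g₂ δ₂ u₂) (hk : 0 < k) (w₁ : k * g₁ + δ₁ = 2 * l + 1)
    (w₂ : k * g₂ + δ₂ = 2 * l + 1) (hE : 0 < E) (hEw : E ≤ 2 * l + 1) (d₁ : δ₁ ≤ E) (d₂ : δ₂ ≤ E)
    (p₁ : 4 * k + 1 ≤ P₁) (f₁ : u₁ ≤ P₂) (f₂ : u₂ ≤ P₂) (p₂ : k + k * E ≤ P₁ * P₂)
    (e₁ : m₁ * u₁ = 2 * n₁) (e₂ : m₂ * u₂ = 2 * n₂)
    (hn : 2 ^ (t + 2) ∣ R₁ * (2 * n₁ * δ₁) + R₂ * (2 * n₂ * δ₂))
    (ha : R₁ * (6 * n₁ * E * (1 + δ₁)) + R₂ * (6 * n₂ * E * (1 + δ₂)) = a) :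
    Tile (2 * l + 1) ((P₁ * P₂) ^ 3 * a * (1 + P₁ * P₂ * 2 ^ (t + 1)) * (2 * l + 1))
      (4 * (P₁ * P₂) * (2 * l + 1)) := by
  have : NeZero E := ⟨hE.ne'⟩
  have : NeZero P₁ := ⟨by omega⟩
  have : NeZero P₂ := ⟨by rintro rfl; omega⟩
  obtain ⟨s⟩ : Nonempty (ZMod E ↪ Fin (2 * l + 1)) :=
    Function.Embedding.nonempty_of_card_le (by simpa using hEw)
  have hf : Fintype.card (ZMod P₁ × ZMod P₂) = P₁ * P₂ := by simp
  obtain ⟨σ₁, s₁, N₁, c₁, k₁, x₁, y₁⟩ := design' (F₁ := ZMod P₁) (F₂ := ZMod P₂) s.injective L₁ hk w₁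
    (by simp) (by simpa using d₁) (by simpa using p₁) (by simpa using f₁) hf
    (le_trans (by gcongr) p₂) e₁
  obtain ⟨σ₂, s₂, N₂, c₂, k₂, x₂, y₂⟩ := design' (F₁ := ZMod P₁) (F₂ := ZMod P₂) s.injective L₂ hk w₂
    (by simp) (by simpa using d₂) (by simpa using p₁) (by simpa using f₂) hf
    (le_trans (by gcongr) p₂) e₂
  have k := add_mem (nsmul_mem k₁ R₁) (nsmul_mem k₂ R₂)
  obtain ⟨n, hn⟩ := hn
  simp only [Prod.smul_mk, Prod.mk_add_mk, smul_eq_mul, smul_smul, smul_add] at k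
  rw [add_add_add_comm, ← add_smul, hn] at k
  rw [ZMod.card] at x₁ x₂ y₁ y₂
  generalize P₁ * P₂ = f at *
  generalize hW : 2 * l + 1 = W at x₁ x₂ y₁ y₂
  have x : f * (R₁ * N₁ + R₂ * N₂) = (R₁ * c₁ + R₂ * c₂) + a * W := by
    rw [← ha]; linear_combination R₁ * x₁ + R₂ * x₂
  have y : R₁ * N₁ + R₂ * N₂ ≤ a * W := by
    rw [← ha, add_mul, mul_assoc R₁, mul_assoc R₂]; gcongr
  obtain ⟨r, hr⟩ : ∃ r, f ^ 3 * a * (2 ^ (t + 1) * W) = (R₁ * c₁ + R₂ * c₂) * f ^ 2 + r := by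
    refine Nat.exists_eq_add_of_le ?_
    calc _ ≤ f * (a * W) * f ^ 2 := by
          gcongr
          exact (le_of_le_of_eq (Nat.le_add_right _ _) x.symm).trans (Nat.mul_le_mul_left f y)
      _ = f ^ 3 * a * (1 * W) := by ring
      _ ≤ _ := by gcongr; exact Nat.one_le_two_pow
  have k' := add_mem (show (_, _) ∈ Rows _ from k) (nsmul_mem pure_rows r)
  simp only [Prod.smul_mk, Prod.mk_add_mk, smul_eq_mul, hf] at k'
  rw [add_assoc _ (_ • AA _ _), ← add_smul, show R₁ * (c₁ * f ^ 2) + R₂ * (c₂ * f ^ 2) + r =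
      f ^ 3 * a * (2 ^ (t + 1) * W) by rw [hr]; ring,
    show R₁ * (N₁ * f ^ 4) + R₂ * (N₂ * f ^ 4) + r * f = f ^ 3 * a * (1 + f * 2 ^ (t + 1)) * W by
      linear_combination f ^ 3 * x + f * hr.symm] at k'
  subst hW
  have q₁ : (2 ^ (t + 2) * n) • SS (ZMod P₁ × ZMod P₂) s ∈ St _ (2 * l + 1) := by
    rw [mul_comm _ n, mul_smul]
    exact nsmul_mem (SS_mem s _ _ fun φ => G_minus_odd hG hl (by simp) φ) n
  have q₂ : (f ^ 3 * a * (2 ^ (t + 1) * (2 * l + 1))) • AA (ZMod P₁ × ZMod P₂) (Fin (2 * l + 1)) ∈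
      Mg _ (2 * l + 1) := by
    rw [mul_smul]
    refine nsmul_mem ?_ _
    simp only [AA, smul_sum]
    exact sum_mem fun p _ => sum_mem fun x _ => sum_mem fun y _ => G_pair hG hl (by simp) _ _
  have := tile_of_mg (add_mem (St_mg (add_mem (add_mem (nsmul_mem s₁ R₁) (nsmul_mem s₂ R₂)) q₁))
    q₂) k'
  rwa [Fintype.card_prod, Fintype.card_prod, hf, Fintype.card_fin, Fintype.card_prod,
    ZMod.card] at this

lemma fam_of {δ : ℕ} {d : Sd → ℕ} (h : ∑ s, d s ^ 2 = δ) {Δ : ℕ} (hΔ : 9 ≤ Δ) (hδ : δ ≤ Δ) :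
    ∃ u, u % 2 = 1 ∧ u ≤ Δ ^ 16 ∧ Fam u fun s => d s ^ 2 := by
  obtain ⟨u, h1, h2, h3⟩ := fam_sq d
  refine ⟨u, h1, h2.trans ?_, h3⟩
  calc _ ≤ (Δ ^ 2) ^ 8 := by rw [h]; gcongr; nlinarith
    _ = _ := by ring

lemma bound_f {k Δ : ℕ} (hΔ : 9 ≤ Δ) (hk : k ≤ Δ) : (4 * k + 1) * (2 * Δ ^ 18 + 1) ≤ Δ ^ 21 := by
  have : 1 ≤ Δ ^ 18 := Nat.one_le_pow _ _ (by omega)
  calc _ ≤ Δ ^ 2 * (Δ * Δ ^ 18) := Nat.mul_le_mul (by nlinarith) (by nlinarith)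
    _ = _ := by ring

lemma bound_a {Δ f E δ K K' n₁ n₂ z : ℕ} (hΔ : 9 ≤ Δ) (bf : f ≤ Δ ^ 21) (hE : E ≤ Δ) (hδ : δ ≤ Δ)
    (hK : K ≤ Δ) (hK' : K' ≤ Δ) (b₁ : n₁ ≤ Δ ^ 18) (b₂ : n₂ ≤ Δ ^ 18) (hz : z ≤ Δ) :
    f ^ 3 * (E * n₂ * z * (6 * n₁ * E * (1 + δ)) + K' * δ * n₁ * z * (6 * n₂ * E * (1 + E))) *
      (1 + f * K) ≤ Δ ^ 200 := by
  have b3 : ∀ x, x ≤ Δ → 1 + x ≤ Δ ^ 2 := fun x hx => by nlinarith
  have b6 : 6 ≤ Δ := by omega
  have c1 := b3 δ hδ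
  have c2 := b3 E hE
  have c3 := b3 Δ le_rfl
  have b5 : 1 + f * K ≤ Δ ^ 23 := by
    have : 1 ≤ Δ ^ 22 := Nat.one_le_pow _ _ (by omega)
    calc _ ≤ Δ ^ 22 + Δ ^ 21 * Δ := by gcongr
      _ = 2 * Δ ^ 22 := by ring
      _ ≤ Δ * Δ ^ 22 := Nat.mul_le_mul_right _ (by omega)
      _ = _ := by ring
  calc _ ≤ (Δ ^ 21) ^ 3 * (Δ * Δ ^ 18 * Δ * (Δ * Δ ^ 18 * Δ * Δ ^ 2) +
        Δ * Δ * Δ ^ 18 * Δ * (Δ * Δ ^ 18 * Δ * Δ ^ 2)) * Δ ^ 23 := by gcongr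
    _ = (1 + Δ) * Δ ^ 128 := by ring
    _ ≤ Δ ^ 2 * Δ ^ 128 := Nat.mul_le_mul_right _ c3
    _ = Δ ^ 130 := by ring
    _ ≤ _ := Nat.pow_le_pow_right (by omega) (by norm_num)

lemma glue {t l f a α β : ℕ} (hG : G t l) (hl : 0 < l) (of : f % 2 = 1)
    (T1 : Tile (2 * l + 1) (a * (2 * l + 1)) (4 * f * (2 * l + 1))) (ba : a ≤ 4 * α)
    (ma : a ≡ 4 * α [MOD 2 ^ (t + 1)]) (bf : f * 2 ^ (t + 1) ≤ β) (Hα : HadOn (Fin (4 * α)))
    (Hβ : HadOn (Fin (4 * β))) : HadOn (Fin (16 * α * β * (2 * l + 1))) := by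
  have T0 := plain_odd hG hl
  obtain ⟨i, hi⟩ := (Nat.modEq_iff_exists_eq_add ba).1 ma
  have T2 := (T1.transpose.add (by
    have := ((T0.mul_right (2 * f)).mul_left i).transpose
    rwa [← mul_assoc (2 * f), mul_right_comm 2 f 2] at this)).transpose
  rw [← mul_assoc i, ← add_mul, mul_comm i, ← hi] at T2
  have T3 := T0.transpose.mul_left (2 * α)
  rw [← mul_assoc (2 * α), mul_right_comm 2 α 2] at T3
  obtain ⟨j, j1, j2⟩ := exists_solve of (t + 1) β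
  have j3 : 4 * (f * j) ≤ 4 * β :=
    Nat.mul_le_mul_left 4 ((Nat.mul_le_mul_left f j1.le).trans bf)
  obtain ⟨j', j4⟩ := (Nat.modEq_iff_exists_eq_add j3).1 (j2.mul_left 4)
  have T := (T2.mul_right j).add (T3.mul_right j')
  rw [show j * (4 * f * (2 * l + 1)) + j' * (2 ^ (t + 1) * (2 * l + 1)) = 4 * β * (2 * l + 1) by
    rw [j4]; ring] at T
  exact (T.had (by omega) Hα Hβ).of_card (by rw [Fintype.card_fin, Fintype.card_fin]; ring)

lemma sum_sq4 (a b c d : ℕ) :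
    ∑ s : Sd, (![![a, b], ![c, d]] s.1 s.2) ^ 2 = a ^ 2 + b ^ 2 + c ^ 2 + d ^ 2 := by
  rw [sum_Sd]
  refine (Fin.sum_univ_two _).trans ?_
  change a ^ 2 + b ^ 2 + (c ^ 2 + d ^ 2) = _
  ring

theorem key16 {t W a p α β Δ : ℕ} (ht : 1 ≤ t) (hG : ∀ l, 0 < l → l ≤ W → G t l) (hW : W % 2 = 1)
    (ha : a % 2 = 1) (hp : p.Prime) (hp4 : p % 4 = 1) (hlt : a ^ 2 * (p + 1) < W)
    (h7 : (W - a ^ 2 * (p + 1)) % 8 ≠ 7) (hK : 2 ^ (t + 2) ≤ p + 1)
    (hΔ : W - a ^ 2 * (p + 1) + a ^ 2 * 2 ^ (t + 2) ≤ Δ) (hα : Δ ^ 200 ≤ α) (hβ : Δ ^ 200 ≤ β)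
    (Hα : HadOn (Fin (4 * α))) (Hβ : HadOn (Fin (4 * β))) : HadOn (Fin (16 * α * β * W)) := by
  obtain ⟨t, rfl⟩ : ∃ t', t = t' + 1 := ⟨t - 1, by omega⟩
  have hK8 : 2 ^ (t + 1 + 2) = 8 * 2 ^ t := by ring
  have hK2 : 2 ^ (t + 1 + 2) = 2 ^ (t + 1 + 1) * 2 := by ring
  have h2 : 0 < 2 ^ t := by positivity
  obtain ⟨K', hK'⟩ : ∃ K', 2 ^ (t + 1 + 2) = K' + 1 := ⟨2 ^ (t + 1 + 2) - 1, by omega⟩
  obtain ⟨l₀, r, e1, hr, hl₀⟩ : ∃ l r, p + 1 = 2 ^ (t + 1 + 2) * l + r ∧ r < 2 ^ (t + 1 + 2) ∧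
      0 < l := ⟨_, _, (Nat.div_add_mod _ _).symm, Nat.mod_lt _ (by omega),
        Nat.div_pos hK (by omega)⟩
  obtain ⟨uA, oA, lA, A⟩ := SW_sq (a := a) (by omega)
  rw [show a ^ 4 = (a ^ 2) ^ 2 by ring] at lA
  have ok : a ^ 2 % 2 = 1 := by rw [Nat.pow_mod, ha]
  generalize a ^ 2 = k at *
  have hk : 0 < k := by omega
  have hl2 : l₀ ≤ 2 ^ (t + 1 + 2) * l₀ := Nat.le_mul_of_pos_left _ (by omega)
  have hg : p + 1 ≤ k * (p + 1) := Nat.le_mul_of_pos_left _ hk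
  have HN := (hG l₀ hl₀ (by omega)).had hl₀
  have hN8 : 2 ^ (t + 1 + 2) * l₀ = 8 * (2 ^ t * l₀) := by ring
  generalize 2 ^ (t + 1 + 2) * l₀ = N at e1 hl2 HN hN8
  obtain ⟨δ, rfl⟩ : ∃ δ, W = k * (p + 1) + δ := ⟨W - k * (p + 1), by omega⟩
  rw [Nat.add_sub_cancel_left] at h7 hΔ
  obtain ⟨r', rfl⟩ : ∃ r', r = 2 * r' := ⟨r / 2, by omega⟩
  have or' : r' % 2 = 1 := by omega
  have e2 : k * (p + 1) = k * N + 2 * (k * r') := by rw [e1]; ring
  have oδ : δ % 2 = 1 := by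
    rw [e2, hN8, mul_left_comm] at hW; omega
  obtain ⟨l, hl⟩ : ∃ l, k * (p + 1) + δ = 2 * l + 1 := ⟨(k * (p + 1) + δ) / 2, by omega⟩
  have hkr : 2 * (k * r') ≤ k * 2 ^ (t + 1 + 2) := by
    rw [mul_left_comm]; exact Nat.mul_le_mul_left k hr.le
  have hkK : 2 ^ (t + 1 + 2) ≤ k * 2 ^ (t + 1 + 2) := Nat.le_mul_of_pos_left _ hk
  have hkK' : k ≤ k * 2 ^ (t + 1 + 2) := Nat.le_mul_of_pos_right _ (by omega)
  obtain ⟨E, hE⟩ : ∃ E, E = δ + 2 * (k * r') := ⟨_, rfl⟩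
  have hΔ9 : 9 ≤ Δ := by omega
  have hEΔ : E ≤ Δ := by omega
  have hkΔ : k ≤ Δ := by omega
  obtain ⟨d1, d2, d3, hd⟩ := three_squares oδ h7
  obtain ⟨c0, c1, c2, c3, hc⟩ := Nat.sum_four_squares E
  have s₁ := (sum_sq4 0 d1 d2 d3).trans (show _ = δ by rw [← hd]; ring)
  have s₂ := (sum_sq4 c0 c1 c2 c3).trans hc
  obtain ⟨u₁, o₁, l₁, F₁⟩ := fam_of s₁ hΔ9 (by omega)
  obtain ⟨u₂, o₂, l₂, F₂⟩ := fam_of s₂ hΔ9 hEΔ
  have L₁ := lv_one hp hp4 hk A F₁ rfl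
  have L₂ := lv_two HN (by rw [s₂]; omega) A F₂
  rw [s₁] at L₁
  rw [s₂] at L₂
  have b : ∀ u, u ≤ Δ ^ 16 → uA * u ≤ Δ ^ 18 := fun u hu => by
    calc _ ≤ Δ ^ 2 * Δ ^ 16 := by gcongr; exact lA.trans (by gcongr)
      _ = _ := by ring
  have b₁ := b u₁ l₁
  have b₂ := b u₂ l₂
  have on₁ : uA * u₁ % 2 = 1 := by simp [Nat.mul_mod, oA, o₁]
  have on₂ : uA * u₂ % 2 = 1 := by simp [Nat.mul_mod, oA, o₂]
  rw [mul_left_comm] at L₂
  generalize uA * u₁ = n₁ at *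
  generalize uA * u₂ = n₂ at *
  obtain ⟨f, hf⟩ : ∃ f, f = (4 * k + 1) * (2 * Δ ^ 18 + 1) := ⟨_, rfl⟩
  have of : f % 2 = 1 := by simp [hf, Nat.mul_mod, Nat.add_mod]
  have bf : f ≤ Δ ^ 21 := hf ▸ bound_f hΔ9 hkΔ
  obtain ⟨z, z1, z2⟩ := exists_solve (c := 3 * f ^ 3 * E * n₁ * n₂ * (k * r'))
    (by
      have : E % 2 = 1 := by omega
      simp [Nat.mul_mod, Nat.pow_mod, of, this, on₁, on₂, ok, or']) (t + 1 + 1) α
  have hz : z ≤ Δ := by omega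
  have hG' := hG l (by omega) (by omega)
  have hl0 : 0 < l := by omega
  have hE18 : k + k * E ≤ (4 * k + 1) * (2 * Δ ^ 18 + 1) := by
    have : E ≤ Δ ^ 18 := hEΔ.trans (Nat.le_self_pow (by norm_num) Δ)
    calc _ = k * (E + 1) := by ring
      _ ≤ _ := Nat.mul_le_mul (by omega) (by omega)
  have T1 := cell_tile (R₁ := E * n₂ * z) (R₂ := K' * δ * n₁ * z) (E := E) (n₁ := n₁) (n₂ := n₂)
    (P₁ := 4 * k + 1) (P₂ := 2 * Δ ^ 18 + 1) hG' hl0 L₁ L₂ hk hl (by omega) (by omega)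
    (by omega) (by omega) le_rfl le_rfl (by omega) (by omega) hE18
    rfl (one_mul _) ⟨2 * n₁ * n₂ * z * E * δ, by rw [hK']; ring⟩ rfl
  rw [← hf] at T1
  have hKΔ : 2 ^ (t + 1 + 1) ≤ Δ := by omega
  rw [hl]
  refine glue hG' hl0 of T1 ((bound_a hΔ9 bf hEΔ (by omega) hKΔ (by omega) b₁ b₂ hz).trans
    (by omega)) ?_ ?_ Hα Hβ
  · refine Nat.ModEq.trans ?_ (z2.mul_left 4)
    generalize ha' : E * n₂ * z * (6 * n₁ * E * (1 + δ)) +
      K' * δ * n₁ * z * (6 * n₂ * E * (1 + E)) = a'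
    have e4 : K' + 1 = 2 ^ (t + 1 + 1) * 2 := hK'.symm.trans hK2
    have e5 : a' = 12 * E * n₁ * n₂ * (k * r') * z +
        (K' + 1) * (6 * E * n₁ * n₂ * z * δ * (1 + E)) := by
      rw [← ha']
      linear_combination (6 * E * n₁ * n₂ * z) * hE
    have e3 : f ^ 3 * a' * (1 + f * 2 ^ (t + 1 + 1)) =
        4 * (3 * f ^ 3 * E * n₁ * n₂ * (k * r') * z) + 2 ^ (t + 1 + 1) *
          (f ^ 4 * a' + 12 * f ^ 3 * E * n₁ * n₂ * z * δ * (1 + E)) := by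
      linear_combination f ^ 3 * e5 + f ^ 3 * (6 * E * n₁ * n₂ * z * δ * (1 + E)) * e4
    rw [e3]
    exact ((Nat.modEq_iff_dvd' (Nat.le_add_right _ _)).2 (by simp)).symm
  · calc _ ≤ Δ ^ 21 * Δ := Nat.mul_le_mul bf hKΔ
      _ = Δ ^ 22 := by ring
      _ ≤ Δ ^ 200 := Nat.pow_le_pow_right (by omega) (by norm_num)
      _ ≤ _ := hβ

end

section

open Finset Filter H88d

/-- a seed `u ^ 2 (p + b)` with `p ≡ c` modulo `q` just below `z` -/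
def Seed (b q c P z : ℕ) : Prop := ∃ u p : ℕ, u % 8 = 1 ∧ P ≤ u ∧ u ≤ 256 * P ∧ p.Prime ∧
  p ≡ c [MOD q] ∧ u ^ 2 * (p + b) < z ∧ z ≤ u ^ 2 * (p + b) + P ^ (2 + 2)

/-- seeds in all the classes of a finite list -/
def Seeds (b q : ℕ) (C : Finset ℕ) (P z : ℕ) : Prop := ∀ c ∈ C, Seed b q c P z

open Classical in
theorem seeds (b q : ℕ) (hb : b ≤ 1) (hq : 0 < q) (C : Finset ℕ) (hC : ∀ c ∈ C, c.Coprime q)
    (ε : ℝ) (hε : 0 < ε) : ∀ᶠ P : ℕ in atTop, ∀ R Z : ℕ, 2 ^ (20 * R) ≤ Nat.log 2 P →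
      P ^ 10 ≤ Z → Z ≤ P ^ R → (#{z ∈ Ioc 0 Z | ¬ Seeds b q C P z} : ℝ) ≤ ε * Z := by
  have h := (eventually_all_finset C).2 fun c hc =>
    H42d.short_int 2 (Or.inr rfl) b hb q c hq (hC c hc) (ε / (#C + 1)) (by positivity)
  filter_upwards [h] with P h R Z h1 h2 h3
  have s : {z ∈ Ioc 0 Z | ¬ Seeds b q C P z} ⊆
      C.biUnion fun c => {z ∈ Ioc 0 Z | ¬ Seed b q c P z} := by
    intro z hz
    obtain ⟨a, d⟩ := mem_filter.1 hz
    obtain ⟨c, d⟩ := not_forall.1 d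
    obtain ⟨d1, d2⟩ := Classical.not_imp.1 d
    exact mem_biUnion.2 ⟨c, d1, mem_filter.2 ⟨a, d2⟩⟩
  refine (Nat.cast_le.2 ((card_le_card s).trans card_biUnion_le)).trans ?_
  push_cast
  refine (sum_le_card_nsmul _ _ (ε / (#C + 1) * Z) fun c hc =>
    le_trans (le_of_eq (by congr)) (h c hc R Z h1 h2 h3)).trans ?_
  rw [nsmul_eq_mul, ← mul_assoc]
  refine mul_le_mul_of_nonneg_right ?_ (Nat.cast_nonneg Z)
  rw [mul_div_assoc', div_le_iff₀ (by positivity)]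
  nlinarith

open Classical in
theorem density_16 :
    Tendsto (fun X : ℕ => (#{m ∈ Ioc 0 X | HadOn (Fin (16 * m))} : ℝ) / X) atTop (nhds 1) := by
  refine density_one _ fun ε hε => ?_
  filter_upwards [almost_all (Seeds 1 8 {1, 5})
    (seeds 1 8 le_rfl (by norm_num) _ (by
      intro c hc
      rcases mem_insert.1 hc with rfl | hc
      · norm_num
      · rw [mem_singleton.1 hc]; norm_num)) (fun _ => 1) (fun P => 2 ^ 16 ≤ P)
    (by
      filter_upwards [eventually_ge_atTop (2 ^ 16)] with P h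
      exact ⟨one_pos, Nat.one_le_pow _ _ (by omega), h⟩) hε]
    with X ⟨t, P, t1, hG, hK, hX, c0, c1, p2, h⟩
  refine le_trans (Nat.cast_le.2 (card_le_card fun m hm => ?_)) h
  obtain ⟨m1, m2⟩ := mem_filter.1 hm
  refine mem_filter.2 ⟨m1, ?_⟩
  rintro ⟨j, q, q', w, rfl, -, ⟨a1, a2, a3⟩, ⟨b1, b2, b3⟩, hw, hs, k5⟩
  apply m2
  rw [Nat.div_one] at hs k5
  obtain ⟨c, hc, hcw⟩ : ∃ c ∈ ({1, 5} : Finset ℕ), (c = 1 ∨ c = 5) ∧ w % 8 ≠ c := by
    by_cases h : w % 8 = 1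
    · exact ⟨5, by simp, Or.inr rfl, by omega⟩
    · exact ⟨1, by simp, Or.inl rfl, h⟩
  obtain ⟨u, p, u1, u2, u3, k1, k2, k3, k4⟩ := hs c hc
  replace k2 : p % 8 = c % 8 := k2
  have hX' := (mem_Ioc.1 m1).2
  have w0 : 0 < w := by omega
  have hle : ∀ {a b : ℕ}, 0 < b → q * q' * w = a * b → a ≤ X := fun hb e =>
    (Nat.le_mul_of_pos_right _ hb).trans
      (e ▸ (Nat.le_mul_of_pos_left _ (by positivity)).trans hX')
  have pw : ∀ {a b : ℕ}, a ≤ b → P ^ a ≤ P ^ b := fun h => Nat.pow_le_pow_right (by omega) h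
  have hq : ∀ q : ℕ, q.Prime → q ≡ 1 [MOD 2 ^ (t + 2)] → q ≤ X → HadOn (Fin (4 * q)) := by
    intro q a b d
    obtain ⟨l, hl⟩ := (Nat.modEq_iff_exists_eq_add a.one_le).1 b.symm
    have e : 2 ^ (t + 2) * l = 2 * (2 ^ (t + 1) * l) := by ring
    have hl0 : 0 < l := Nat.pos_of_ne_zero (by rintro rfl; have := a.one_lt; omega)
    have hl1 : l ≤ 2 ^ (t + 2) * l := Nat.le_mul_of_pos_left l (by positivity)
    exact miyamoto4 a (by omega) (((hG l hl0 (by omega)).had hl0).of_card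
      (by simp only [Fintype.card_fin]; omega))
  have H1 := hq q a1 a2 (hle (mul_pos b1.pos w0) (by ring))
  have H2 := hq q' b1 b2 (hle (mul_pos a1.pos w0) (by ring))
  have wX : w ≤ X := hle (mul_pos a1.pos b1.pos) (by ring)
  have e0 : u ^ 2 ≤ P ^ 3 := by
    calc u ^ 2 ≤ (256 * P) ^ 2 := Nat.pow_le_pow_left u3 2
      _ = 2 ^ 16 * P ^ 2 := by ring
      _ ≤ P * P ^ 2 := Nat.mul_le_mul_right _ p2
      _ = _ := by ring
  have e4 : 2 * P ^ 4 ≤ P ^ 5 := by rw [pow_succ' P 4]; exact Nat.mul_le_mul_right _ (by omega)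
  have d1 : P ≤ p + 1 := by
    by_contra c
    have e1 : u ^ 2 * (p + 1) ≤ P ^ 3 * P := Nat.mul_le_mul e0 (by omega)
    rw [← pow_succ] at e1
    have e3 : P ^ 5 < P ^ 1000 := Nat.pow_lt_pow_right (by omega) (by omega)
    norm_num at e1 k4
    omega
  have d2 : w - u ^ 2 * (p + 1) + u ^ 2 * 2 ^ (t + 2) ≤ P ^ 5 := by
    have e1 : u ^ 2 * 2 ^ (t + 2) ≤ P ^ 3 * P := Nat.mul_le_mul e0 hK
    rw [← pow_succ] at e1
    norm_num at e1 k4
    omega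
  have d3 : (P ^ 5) ^ 200 ≤ P ^ 5000 := by rw [← pow_mul]; exact pw (by omega)
  have d4 : u ^ 2 * (p + 1) % 8 = (p + 1) % 8 := by
    rw [Nat.mul_mod, Nat.pow_mod, u1]; simp
  have L := key16 (t := t) (W := w) (a := u) (p := p) (α := 2 ^ j * q) (β := q') (Δ := P ^ 5)
    (by omega)     (fun l l1 l2 => hG l l1 (l2.trans wX)) hw (by omega) k1 (by omega) k3 (by omega)
    (hK.trans d1) d2 ((d3.trans a3).trans (Nat.le_mul_of_pos_left _ (by positivity)))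
    (d3.trans b3) (((hadOn_two_pow j).prod H1).of_card (by simp; ring)) H2
  exact L.of_card (by simp; ring)

end

end Pool.Agent.MP_d8b1b3_co.H7
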